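import Pool.Statements.S00329
import Pool.Agent.L5helper22.Main

set_option autoImplicit false
open Pool Pool.MP_9bd952_ag

namespace Pool.Agent.S00329

open Pool.Agent.L5helper22 in
theorem finset_bound {m : ℕ} {Y : Set (Fin m → ℂ)} (hY : IsAlg Y) (hs : IsSmooth Y)
    (hc : IsConnected Y) {N : ℕ} (hN : LogDep Y N) (T : Finset (Y → ℂ))
    (hT : ∀ g ∈ T, (∀ y, g y ≠ 0 ∧ g y ≠ 1) ∧ (∃ a b, g a ≠ g b) ∧
      ∀ p : ↥Y, ∃ U : Set (Fin m → ℂ), IsOpen U ∧ (p : Fin m → ℂ) ∈ U ∧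
        ∃ h : (Fin m → ℂ) → ℂ, DifferentiableOn ℂ h U ∧
          ∀ y : ↥Y, (y : Fin m → ℂ) ∈ U → h y = g y) : T.card ≤ 2 * 129 ^ (2 * N) := by
  classical
  have hx : ∀ (g : Y → ℂ) (y : Fin m → ℂ) (hy : y ∈ Y),
      (if h : y ∈ Y then g ⟨y, h⟩ else 0) = g ⟨y, hy⟩ := fun g y hy => dif_pos hy
  have h1 := main_count hY hs hc hN (ι := T)
    (fun i y => if h : y ∈ Y then i.1 ⟨y, h⟩ else 0) (fun i p hp => ?_) (fun i y hy => ?_)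
    (fun i => ?_) (fun i i' hii => ?_)
  · rwa [Fintype.card_coe] at h1
  · obtain ⟨U, hU, hpU, h, hd, he⟩ := (hT i.1 i.2).2.2 ⟨p, hp⟩
    refine ⟨U, hU, hpU, h, hd, fun y hy hyU => ?_⟩
    exact (he ⟨y, hy⟩ hyU).trans (hx i.1 y hy).symm
  · show (if h : y ∈ Y then i.1 ⟨y, h⟩ else 0) ≠ 0 ∧ (if h : y ∈ Y then i.1 ⟨y, h⟩ else 0) ≠ 1
    rw [hx _ _ hy]
    exact (hT i.1 i.2).1 ⟨y, hy⟩
  · obtain ⟨a, b, hab⟩ := (hT i.1 i.2).2.1
    refine ⟨a.1, a.2, b.1, b.2, ?_⟩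
    show (if h : a.1 ∈ Y then i.1 ⟨a.1, h⟩ else 0) ≠ (if h : b.1 ∈ Y then i.1 ⟨b.1, h⟩ else 0)
    rw [hx _ _ a.2, hx _ _ b.2]
    exact hab
  · by_contra hcon
    push Not at hcon
    apply hii
    apply Subtype.ext
    funext y
    have h2 : (if h : y.1 ∈ Y then i.1 ⟨y.1, h⟩ else 0) =
        (if h : y.1 ∈ Y then i'.1 ⟨y.1, h⟩ else 0) := hcon y.1 y.2
    rw [hx _ _ y.2, hx _ _ y.2] at h2
    exact h2

/-- For every connected smooth closed algebraic submanifold X of some C^n there is B such that every such Y homeomorphic to X has at most B non-constant holomorphic maps into C minus {0,1}. -/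
theorem result :
  ∀ (n : ℕ) (X : Set (Fin n → ℂ)),
    (∃ S : Set (MvPolynomial (Fin n) ℂ), X = {x | ∀ P ∈ S, MvPolynomial.eval x P = 0}) →
    (∀ p ∈ X, ∃ U : Set (Fin n → ℂ), IsOpen U ∧ p ∈ U ∧
      ∃ (k : ℕ) (F : (Fin n → ℂ) → (Fin k → ℂ)), DifferentiableOn ℂ F U ∧
        (∀ x ∈ U, Function.Surjective ⇑(fderiv ℂ F x)) ∧ X ∩ U = U ∩ F ⁻¹' {0}) →
    IsConnected X →
    ∃ B : ℕ, ∀ (m : ℕ) (Y : Set (Fin m → ℂ)),
      (∃ S : Set (MvPolynomial (Fin m) ℂ), Y = {y | ∀ P ∈ S, MvPolynomial.eval y P = 0}) →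
      (∀ p ∈ Y, ∃ U : Set (Fin m → ℂ), IsOpen U ∧ p ∈ U ∧
        ∃ (k : ℕ) (F : (Fin m → ℂ) → (Fin k → ℂ)), DifferentiableOn ℂ F U ∧
          (∀ x ∈ U, Function.Surjective ⇑(fderiv ℂ F x)) ∧ Y ∩ U = U ∩ F ⁻¹' {0}) →
      IsConnected Y →
      Nonempty (↥X ≃ₜ ↥Y) →
      {g : ↥Y → ℂ | (∀ y, g y ≠ 0 ∧ g y ≠ 1) ∧ (∃ a b, g a ≠ g b) ∧
        ∀ p : ↥Y, ∃ U : Set (Fin m → ℂ), IsOpen U ∧ (p : Fin m → ℂ) ∈ U ∧
          ∃ h : (Fin m → ℂ) → ℂ, DifferentiableOn ℂ h U ∧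
            ∀ y : ↥Y, (y : Fin m → ℂ) ∈ U → h y = g y}.encard ≤ (B : ℕ∞) := by
  intro n X hX hXs hXc
  obtain ⟨N, hN⟩ := Pool.Agent.L5helper22.exists_logDep hX hXs hXc
  refine ⟨2 * 129 ^ (2 * N), fun m Y hY hYs hYc he => ?_⟩
  obtain ⟨e⟩ := he
  have hNY := hN.homeo e
  by_contra hcon
  rw [not_le] at hcon
  obtain ⟨T, hT, hcard⟩ := Set.exists_subset_encard_eq (Order.add_one_le_of_lt hcon)
  have hfin : T.Finite := by
    refine Set.finite_of_encard_eq_coe (k := 2 * 129 ^ (2 * N) + 1) ?_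
    rw [hcard]
    push_cast
    rfl
  have h1 := finset_bound hY hYs hYc hNY hfin.toFinset (fun g hg => hT (hfin.mem_toFinset.mp hg))
  have h2 : T.encard = hfin.toFinset.card := hfin.encard_eq_coe_toFinset_card
  rw [h2] at hcard
  have h3 : hfin.toFinset.card = 2 * 129 ^ (2 * N) + 1 := by exact_mod_cast hcard
  omega

end Pool.Agent.S00329
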