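-- A monomial algebra with two generators `x, y`: the nonzero words are `x ^ i`, `x ^ i y x ^ j` and
-- `x ^ i (y x ^ a) ^ s y x ^ j` with `1 ≤ s ≤ a`.  Its growth is at most polynomial of degree four; the
-- ideal generated by `y x ^ a y` is nilpotent, and `(y x ^ a) ^ a y` is not zero.
import Pool.Statements.S02538

set_option autoImplicit false
open Pool Pool.MP_a19302_al

namespace Pool.Agent.S02538

noncomputable section

/-- the two free generators -/
def gx : FreeAlgebra ℚ (Fin 2) := FreeAlgebra.ι ℚ 0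
def gy : FreeAlgebra ℚ (Fin 2) := FreeAlgebra.ι ℚ 1

/-- the defining relations -/
inductive Rel : FreeAlgebra ℚ (Fin 2) → FreeAlgebra ℚ (Fin 2) → Prop
  | gap (b c : ℕ) (h : b ≠ c) : Rel (gy * gx ^ b * gy * gx ^ c * gy) 0
  | len (b : ℕ) : Rel ((gy * gx ^ b) ^ (b + 1) * gy) 0

/-- the algebra -/
abbrev A : Type := RingQuot Rel

def x : A := RingQuot.mkAlgHom ℚ Rel gx
def y : A := RingQuot.mkAlgHom ℚ Rel gy

theorem rel_gap {b c : ℕ} (h : b ≠ c) : y * x ^ b * y * x ^ c * y = 0 := by
  have := RingQuot.mkAlgHom_rel ℚ (Rel.gap b c h)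
  simp only [map_mul, map_pow, map_zero] at this
  exact this

theorem rel_len (b : ℕ) : (y * x ^ b) ^ (b + 1) * y = 0 := by
  have := RingQuot.mkAlgHom_rel ℚ (Rel.len b)
  simp only [map_mul, map_pow, map_zero] at this
  exact this

theorem adjoin_top : Algebra.adjoin ℚ ({1, x, y} : Set A) = ⊤ := by
  rw [eq_top_iff]
  have h1 : (⊤ : Subalgebra ℚ A) = Subalgebra.map (RingQuot.mkAlgHom ℚ Rel) ⊤ := by
    rw [Algebra.map_top]
    exact ((AlgHom.range_eq_top _).2 (RingQuot.mkAlgHom_surjective ℚ Rel)).symm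
  rw [h1, ← FreeAlgebra.adjoin_range_ι, AlgHom.map_adjoin]
  apply Algebra.adjoin_mono
  rintro _ ⟨_, ⟨i, rfl⟩, rfl⟩
  fin_cases i
  · right; left; rfl
  · right; right; rfl

/-- the words with all gaps equal to `a` -/
def W (a s i j : ℕ) : A := x ^ i * (y * x ^ a) ^ s * y * x ^ j

theorem y_eq (a : ℕ) : y = W a 0 0 0 := by simp [W]

theorem W_mul_x (a s i j : ℕ) : W a s i j * x = W a s i (j + 1) := by
  simp only [W, mul_assoc, pow_succ]

theorem x_mul_W (a s i j : ℕ) : x * W a s i j = W a s (i + 1) j := by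
  simp only [W, ← mul_assoc, pow_succ']

theorem W_zero (a i j b : ℕ) : W a 0 i j = W b 0 i j := by
  simp [W]

theorem W_mul_W_same (a s t i j i' j' : ℕ) (h : j + i' = a) :
    W a s i j * W a t i' j' = W a (s + t + 1) i j' := by
  have h1 : x ^ j * x ^ i' = x ^ a := by rw [← pow_add, h]
  calc W a s i j * W a t i' j' = x ^ i * (y * x ^ a) ^ s * y * (x ^ j * x ^ i') * (y * x ^ a) ^ t * y * x ^ j' := by
        simp only [W, mul_assoc]
    _ = x ^ i * ((y * x ^ a) ^ s * (y * x ^ a) * (y * x ^ a) ^ t) * y * x ^ j' := by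
        rw [h1]; simp only [mul_assoc]
    _ = W a (s + t + 1) i j' := by
        rw [← pow_succ, ← pow_add]
        simp only [W]
        congr 4
        omega

theorem W_mul_W_left (a s t b i j i' j' : ℕ) (hs : 1 ≤ s) (h : j + i' ≠ a) :
    W a s i j * W b t i' j' = 0 := by
  obtain ⟨s, rfl⟩ : ∃ r, s = r + 1 := ⟨s - 1, by omega⟩
  have h1 : x ^ j * x ^ i' = x ^ (j + i') := by rw [← pow_add]
  have key : y * x ^ a * y * x ^ (j + i') * y = 0 := rel_gap (Ne.symm h)
  cases t with
  | zero =>
    calc W a (s + 1) i j * W b 0 i' j'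
        = x ^ i * (y * x ^ a) ^ s * ((y * x ^ a) * y * (x ^ j * x ^ i') * y) * x ^ j' := by
          simp only [W, mul_assoc, pow_succ, pow_zero, one_mul]
      _ = 0 := by
          rw [h1, key]; simp
  | succ t =>
    calc W a (s + 1) i j * W b (t + 1) i' j'
        = x ^ i * (y * x ^ a) ^ s * ((y * x ^ a) * y * (x ^ j * x ^ i') * y) * x ^ b * (y * x ^ b) ^ t * y * x ^ j' := by
          unfold W
          rw [pow_succ' (y * x ^ b) t]
          simp only [mul_assoc, pow_succ]
      _ = 0 := by
          rw [h1, key]; simp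

theorem W_mul_W_right (a s t b i j i' j' : ℕ) (ht : 1 ≤ t) (h : j + i' ≠ a) :
    W b s i j * W a t i' j' = 0 := by
  obtain ⟨t, rfl⟩ : ∃ r, t = r + 1 := ⟨t - 1, by omega⟩
  have h1 : x ^ j * x ^ i' = x ^ (j + i') := by rw [← pow_add]
  have key : y * x ^ (j + i') * y * x ^ a * y = 0 := rel_gap h
  cases t with
  | zero =>
    calc W b s i j * W a (0 + 1) i' j'
        = x ^ i * (y * x ^ b) ^ s * (y * (x ^ j * x ^ i') * y * x ^ a * y) * x ^ j' := by
          simp only [W, mul_assoc, pow_succ, pow_zero, one_mul]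
      _ = 0 := by
          rw [h1, key]; simp
  | succ t =>
    calc W b s i j * W a (t + 1 + 1) i' j'
        = x ^ i * (y * x ^ b) ^ s * (y * (x ^ j * x ^ i') * y * x ^ a * y) * x ^ a * (y * x ^ a) ^ t * y * x ^ j' := by
          unfold W
          rw [pow_succ' (y * x ^ a) (t + 1), pow_succ' (y * x ^ a) t]
          simp only [mul_assoc]
      _ = 0 := by
          rw [h1, key]; simp

theorem W_big (a s i j : ℕ) (h : a + 1 ≤ s) : W a s i j = 0 := by
  obtain ⟨r, rfl⟩ : ∃ r, s = r + (a + 1) := ⟨s - (a + 1), by omega⟩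
  calc W a (r + (a + 1)) i j = x ^ i * (y * x ^ a) ^ r * ((y * x ^ a) ^ (a + 1) * y) * x ^ j := by
        simp only [W, pow_add, mul_assoc]
    _ = 0 := by rw [rel_len]; simp

/-- the span of the words with gap `a` and at least `s` gaps -/
def M (a s : ℕ) : Submodule ℚ A := Submodule.span ℚ {w | ∃ t i j, s ≤ t ∧ w = W a t i j}

theorem W_mem (a s t i j : ℕ) (h : s ≤ t) : W a t i j ∈ M a s :=
  Submodule.subset_span ⟨t, i, j, h, rfl⟩

theorem M_bot (a : ℕ) : M a (a + 1) = ⊥ := by
  rw [eq_bot_iff, M, Submodule.span_le]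
  rintro _ ⟨t, i, j, h, rfl⟩
  rw [W_big a t i j h]
  exact Submodule.zero_mem _

theorem M_mul (a s t : ℕ) (hs : 1 ≤ s) {u v : A} (hu : u ∈ M a s) (hv : v ∈ M a t) :
    u * v ∈ M a (s + t) := by
  have h : u * v ∈ M a s * M a t := Submodule.mul_mem_mul hu hv
  rw [M, M, Submodule.span_mul_span] at h
  refine Submodule.span_le.2 ?_ h
  rintro _ ⟨_, ⟨p, i, j, hp, rfl⟩, _, ⟨q, i', j', hq, rfl⟩, rfl⟩
  by_cases hj : j + i' = a
  · show W a p i j * W a q i' j' ∈ M a (s + t)
    rw [W_mul_W_same a p q i j i' j' hj]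
    exact W_mem _ _ _ _ _ (by omega)
  · show W a p i j * W a q i' j' ∈ M a (s + t)
    rw [W_mul_W_left a p q a i j i' j' (by omega) hj]
    exact Submodule.zero_mem _

/-- the subalgebra of elements that stabilize `M a s` -/
def stab (a s : ℕ) : Subalgebra ℚ A where
  carrier := {r | ∀ m ∈ M a s, r * m ∈ M a s ∧ m * r ∈ M a s}
  mul_mem' := by
    intro r r' hr hr' m hm
    refine ⟨?_, ?_⟩
    · rw [mul_assoc]; exact (hr _ (hr' m hm).1).1
    · rw [← mul_assoc]; exact (hr' _ (hr m hm).2).2
  add_mem' := by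
    intro r r' hr hr' m hm
    refine ⟨?_, ?_⟩
    · rw [add_mul]; exact add_mem (hr m hm).1 (hr' m hm).1
    · rw [mul_add]; exact add_mem (hr m hm).2 (hr' m hm).2
  algebraMap_mem' := by
    intro c m hm
    refine ⟨?_, ?_⟩
    · rw [← Algebra.smul_def]; exact Submodule.smul_mem _ _ hm
    · rw [← Algebra.commutes, ← Algebra.smul_def]; exact Submodule.smul_mem _ _ hm

theorem M_ideal (a s : ℕ) (hs : 1 ≤ s) (r m : A) (hm : m ∈ M a s) :
    r * m ∈ M a s ∧ m * r ∈ M a s := by
  have hgen : ∀ r : A, (∀ t i j, s ≤ t → r * W a t i j ∈ M a s ∧ W a t i j * r ∈ M a s) →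
      r ∈ stab a s := by
    intro r hr m hm
    refine ⟨?_, ?_⟩
    · have : m ∈ Submodule.comap (LinearMap.mulLeft ℚ r) (M a s) := by
        refine Submodule.span_le.2 ?_ hm
        rintro _ ⟨t, i, j, h, rfl⟩
        exact (hr t i j h).1
      exact this
    · have : m ∈ Submodule.comap (LinearMap.mulRight ℚ r) (M a s) := by
        refine Submodule.span_le.2 ?_ hm
        rintro _ ⟨t, i, j, h, rfl⟩
        exact (hr t i j h).2
      exact this
  have htop : stab a s = ⊤ := by
    rw [eq_top_iff, ← adjoin_top, Algebra.adjoin_le_iff]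
    rintro r (rfl | rfl | rfl)
    · exact one_mem _
    · apply hgen
      intro t i j h
      rw [x_mul_W, W_mul_x]
      exact ⟨W_mem _ _ _ _ _ h, W_mem _ _ _ _ _ h⟩
    · apply hgen
      intro t i j h
      rw [y_eq a]
      refine ⟨?_, ?_⟩
      · by_cases hj : 0 + i = a
        · rw [W_mul_W_same _ _ _ _ _ _ _ hj]; exact W_mem _ _ _ _ _ (by omega)
        · rw [W_mul_W_right a 0 t a 0 0 i j (by omega) hj]; exact Submodule.zero_mem _
      · by_cases hj : j + 0 = a
        · rw [W_mul_W_same _ _ _ _ _ _ _ hj]; exact W_mem _ _ _ _ _ (by omega)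
        · rw [W_mul_W_left a t 0 a i j 0 0 (by omega) hj]; exact Submodule.zero_mem _
  have : r ∈ stab a s := by rw [htop]; trivial
  exact this m hm

/-- the two-sided ideal spanned by the words with gap `a` and at least one gap -/
def I (a : ℕ) : TwoSidedIdeal A :=
  TwoSidedIdeal.mk' (M a 1 : Set A) (Submodule.zero_mem _)
    (fun h h' => Submodule.add_mem _ h h') (fun h => Submodule.neg_mem _ h)
    (fun h => (M_ideal a 1 le_rfl _ _ h).1) (fun h => (M_ideal a 1 le_rfl _ _ h).2)

theorem mem_I (a : ℕ) (r : A) : r ∈ I a ↔ r ∈ M a 1 := by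
  rw [I, TwoSidedIdeal.mem_mk']; rfl

theorem prod_mem (a : ℕ) : ∀ (m : ℕ) (f : Fin (m + 1) → A), (∀ i, f i ∈ M a 1) →
    (List.ofFn f).prod ∈ M a (m + 1) := by
  intro m
  induction m with
  | zero => intro f hf; simpa using hf 0
  | succ m ih =>
    intro f hf
    rw [List.ofFn_succ, List.prod_cons]
    have := M_mul a 1 (m + 1) le_rfl (hf 0) (ih (fun i => f i.succ) (fun i => hf _))
    rwa [Nat.add_comm] at this

theorem I_nilp (a : ℕ) : ∃ m : ℕ, ∀ f : Fin m → A, (∀ i, f i ∈ I a) → (List.ofFn f).prod = 0 := by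
  refine ⟨a + 1, fun f hf => ?_⟩
  have := prod_mem a a f (fun i => (mem_I a _).1 (hf i))
  rw [M_bot] at this
  simpa using this

/-! ### growth -/

open Classical in
/-- the words with all parameters at most `n` -/
def G (n : ℕ) : Finset A :=
  (Finset.range (n + 1)).image (fun i => x ^ i) ∪
    ((Finset.range (n + 1) ×ˢ Finset.range (n + 1)) ×ˢ
      (Finset.range (n + 1) ×ˢ Finset.range (n + 1))).image
        (fun p => W p.1.1 p.1.2 p.2.1 p.2.2)

theorem G_card (n : ℕ) : (G n).card ≤ 2 * (n + 1) ^ 4 := by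
  classical
  refine (Finset.card_union_le _ _).trans ?_
  have h1 : ((Finset.range (n + 1)).image (fun i => x ^ i)).card ≤ (n + 1) ^ 4 := by
    refine Finset.card_image_le.trans ?_
    rw [Finset.card_range]
    exact Nat.le_self_pow (by norm_num) _
  have h2 : (((Finset.range (n + 1) ×ˢ Finset.range (n + 1)) ×ˢ
      (Finset.range (n + 1) ×ˢ Finset.range (n + 1))).image
        (fun p => W p.1.1 p.1.2 p.2.1 p.2.2)).card ≤ (n + 1) ^ 4 := by
    refine Finset.card_image_le.trans ?_
    simp only [Finset.card_product, Finset.card_range]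
    apply le_of_eq; ring
  calc _ ≤ (n + 1) ^ 4 + (n + 1) ^ 4 := by
        gcongr
    _ = _ := by ring

theorem x_mem_G {n i : ℕ} (h : i ≤ n) : x ^ i ∈ Submodule.span ℚ (G n : Set A) := by
  classical
  apply Submodule.subset_span
  rw [Finset.mem_coe, G, Finset.mem_union]
  left
  rw [Finset.mem_image]
  exact ⟨i, Finset.mem_range.2 (by omega), rfl⟩

theorem W_mem_G {n a s i j : ℕ} (ha : a ≤ n) (hs : s ≤ n) (hi : i ≤ n) (hj : j ≤ n) :
    W a s i j ∈ Submodule.span ℚ (G n : Set A) := by
  classical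
  apply Submodule.subset_span
  rw [Finset.mem_coe, G, Finset.mem_union]
  right
  rw [Finset.mem_image]
  refine ⟨((a, s), (i, j)), ?_, rfl⟩
  simp only [Finset.mem_product, Finset.mem_range]
  omega

/-- the generating space -/
def V : Submodule ℚ A := Submodule.span ℚ {1, x, y}

theorem V_pow (n : ℕ) : V ^ n ≤ Submodule.span ℚ (G n : Set A) := by
  classical
  induction n with
  | zero =>
    rw [pow_zero, Submodule.one_eq_span, Submodule.span_le]
    rintro _ rfl
    simpa using x_mem_G (n := 0) (i := 0) le_rfl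
  | succ n ih =>
    rw [pow_succ]
    refine (mul_le_mul' ih le_rfl).trans ?_
    rw [V, Submodule.span_mul_span, Submodule.span_le]
    rintro _ ⟨g, hg, v, hv, rfl⟩
    show g * v ∈ Submodule.span ℚ (G (n + 1) : Set A)
    rw [Finset.mem_coe, G, Finset.mem_union, Finset.mem_image, Finset.mem_image] at hg
    rcases hg with ⟨i, hi, rfl⟩ | ⟨⟨⟨a, s⟩, ⟨i, j⟩⟩, hp, rfl⟩
    · rw [Finset.mem_range] at hi
      rcases hv with rfl | rfl | rfl
      · rw [mul_one]; exact x_mem_G (by omega)
      · rw [← pow_succ]; exact x_mem_G (by omega)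
      · have : x ^ i * y = W 0 0 i 0 := by simp [W]
        rw [this]; exact W_mem_G (by omega) (by omega) (by omega) (by omega)
    · simp only [Finset.mem_product, Finset.mem_range] at hp
      rcases hv with rfl | rfl | rfl
      · rw [mul_one]; show W a s i j ∈ _
        exact W_mem_G (by omega) (by omega) (by omega) (by omega)
      · show W a s i j * x ∈ _
        rw [W_mul_x]; exact W_mem_G (by omega) (by omega) (by omega) (by omega)
      · show W a s i j * y ∈ _
        rcases Nat.eq_zero_or_pos s with rfl | hs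
        · rw [W_zero a i j j, y_eq j, W_mul_W_same j 0 0 i j 0 0 rfl]
          exact W_mem_G (by omega) (by omega) (by omega) (by omega)
        · rw [y_eq a]
          by_cases hj : j + 0 = a
          · rw [W_mul_W_same _ _ _ _ _ _ _ hj]
            exact W_mem_G (by omega) (by omega) (by omega) (by omega)
          · rw [W_mul_W_left a s 0 a i j 0 0 (by omega) hj]; exact Submodule.zero_mem _

theorem V_growth (n : ℕ) : Module.finrank ℚ ↥(V ^ n) ≤ 2 * (n + 1) ^ 4 := by
  have : FiniteDimensional ℚ (Submodule.span ℚ (G n : Set A)) :=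
    FiniteDimensional.span_finset ℚ (G n)
  calc _ ≤ Module.finrank ℚ (Submodule.span ℚ (G n : Set A)) := Submodule.finrank_mono (V_pow n)
    _ ≤ (G n).card := finrank_span_finset_le_card (G n)
    _ ≤ _ := G_card n

/-! ### the words `(y x ^ a) ^ a y` do not vanish -/

/-- position `i` carries the letter `y` -/
def Q (a i : ℕ) : Prop := a + 1 ∣ i ∧ i ≤ a * (a + 1)

/-- position `i` carries the letter `x` -/
def P (a i : ℕ) : Prop := ¬ a + 1 ∣ i

open Classical in
/-- shift operator that reads letters at the positions where `R` holds -/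
def shiftOp (R : ℕ → Prop) : (ℕ → ℚ) →ₗ[ℚ] (ℕ → ℚ) where
  toFun g i := if R i then g (i + 1) else 0
  map_add' g h := by funext i; by_cases hR : R i <;> simp [hR]
  map_smul' c g := by funext i; by_cases hR : R i <;> simp [hR]

open Classical in
theorem shiftOp_apply (R : ℕ → Prop) (g : ℕ → ℚ) (i : ℕ) :
    shiftOp R g i = if R i then g (i + 1) else 0 := rfl

open Classical in
theorem shiftOp_pow (R : ℕ → Prop) (b : ℕ) (g : ℕ → ℚ) (i : ℕ) :
    (shiftOp R ^ b) g i = if ∀ t < b, R (i + t) then g (i + b) else 0 := by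
  induction b generalizing i with
  | zero => simp
  | succ b ih =>
    rw [pow_succ', Module.End.mul_apply, shiftOp_apply, ih]
    by_cases h0 : R i
    · rw [if_pos h0]
      by_cases h1 : ∀ t < b, R (i + 1 + t)
      · rw [if_pos h1, if_pos]
        · congr 1; ring
        · intro t ht
          rcases Nat.eq_zero_or_pos t with rfl | hp
          · simpa using h0
          · have := h1 (t - 1) (by omega)
            rwa [show i + 1 + (t - 1) = i + t by omega] at this
      · rw [if_neg h1, if_neg]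
        intro h
        apply h1
        intro t ht
        have := h (t + 1) (by omega)
        rwa [show i + (t + 1) = i + 1 + t by ring] at this
    · rw [if_neg h0, if_neg]
      intro h
      exact h0 (by simpa using h 0 (by omega))

/-- the operators of the representation -/
def X' (a : ℕ) : Module.End ℚ (ℕ → ℚ) := shiftOp (P a)
def Y' (a : ℕ) : Module.End ℚ (ℕ → ℚ) := shiftOp (Q a)

open Classical in
theorem yx_apply (a b : ℕ) (g : ℕ → ℚ) (i : ℕ) :
    (Y' a * X' a ^ b) g i = if Q a i ∧ ∀ t < b, P a (i + 1 + t) then g (i + 1 + b) else 0 := by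
  rw [Module.End.mul_apply, Y', shiftOp_apply, X', shiftOp_pow]
  by_cases h0 : Q a i <;> simp [h0]

theorem gap_eq {a b i : ℕ} (h0 : a + 1 ∣ i) (h1 : ∀ t < b, P a (i + 1 + t)) (h2 : a + 1 ∣ i + 1 + b) :
    b = a := by
  obtain ⟨p, rfl⟩ := h0
  obtain ⟨q, hq⟩ := h2
  have hb : a ≤ b := by
    have : p < q := by
      by_contra h
      have : (a + 1) * q ≤ (a + 1) * p := Nat.mul_le_mul_left _ (by omega)
      omega
    have : (a + 1) * (p + 1) ≤ (a + 1) * q := Nat.mul_le_mul_left _ this
    rw [Nat.mul_add] at this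
    omega
  by_contra hne
  have := h1 a (by omega)
  apply this
  exact ⟨p + 1, by ring⟩

theorem rep_gap (a b c : ℕ) (h : b ≠ c) : Y' a * X' a ^ b * Y' a * X' a ^ c * Y' a = 0 := by
  classical
  refine LinearMap.ext fun g => funext fun i => ?_
  have h1 : Y' a * X' a ^ b * Y' a * X' a ^ c * Y' a = (Y' a * X' a ^ b) * ((Y' a * X' a ^ c) * Y' a) := by
    simp only [mul_assoc]
  rw [h1, Module.End.mul_apply, yx_apply]
  split_ifs with h0
  · rw [Module.End.mul_apply, yx_apply]
    split_ifs with h2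
    · rw [Y', shiftOp_apply]
      split_ifs with h3
      · exfalso
        have e1 := gap_eq h0.1.1 h0.2 h2.1.1
        have e2 := gap_eq h2.1.1 h2.2 h3.1
        exact h (e1.trans e2.symm)
      · rfl
    · rfl
  · rfl

open Classical in
theorem yx_pow (a s : ℕ) (g : ℕ → ℚ) (i : ℕ) :
    ((Y' a * X' a ^ a) ^ s) g i =
      if (∀ t < s, Q a (i + t * (a + 1)) ∧ ∀ r < a, P a (i + t * (a + 1) + 1 + r)) then
        g (i + s * (a + 1)) else 0 := by
  induction s generalizing i with
  | zero => simp
  | succ s ih =>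
    rw [pow_succ', Module.End.mul_apply, yx_apply, ih]
    by_cases h0 : Q a i ∧ ∀ t < a, P a (i + 1 + t)
    · rw [if_pos h0]
      by_cases h1 : ∀ t < s, Q a (i + 1 + a + t * (a + 1)) ∧ ∀ r < a, P a (i + 1 + a + t * (a + 1) + 1 + r)
      · rw [if_pos h1, if_pos]
        · congr 1; ring
        · intro t ht
          rcases Nat.eq_zero_or_pos t with rfl | hp
          · simpa using h0
          · have := h1 (t - 1) (by omega)
            rwa [show i + 1 + a + (t - 1) * (a + 1) = i + t * (a + 1) by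
              obtain ⟨u, rfl⟩ : ∃ u, t = u + 1 := ⟨t - 1, by omega⟩
              simp only [Nat.add_sub_cancel]; ring] at this
      · rw [if_neg h1, if_neg]
        intro h
        apply h1
        intro t ht
        have := h (t + 1) (by omega)
        rwa [show i + (t + 1) * (a + 1) = i + 1 + a + t * (a + 1) by ring] at this
    · rw [if_neg h0, if_neg]
      intro h
      exact h0 (by simpa using h 0 (by omega))

theorem rep_len (a b : ℕ) : (Y' a * X' a ^ b) ^ (b + 1) * Y' a = 0 := by
  classical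
  by_cases hab : b = a
  · subst hab
    refine LinearMap.ext fun g => funext fun i => ?_
    rw [Module.End.mul_apply, yx_pow]
    split_ifs with h0
    · rw [Y', shiftOp_apply]
      split_ifs with h1
      · exfalso
        have := h1.2
        have h2 : b * (b + 1) < (b + 1) * (b + 1) := Nat.mul_lt_mul_of_pos_right (by omega) (by omega)
        omega
      · rfl
    · rfl
  · have key : Y' a * X' a ^ b * Y' a = 0 := by
      refine LinearMap.ext fun g => funext fun i => ?_
      rw [Module.End.mul_apply, yx_apply]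
      split_ifs with h0
      · rw [Y', shiftOp_apply]
        split_ifs with h1
        · exact absurd (gap_eq h0.1.1 h0.2 h1.1) hab
        · rfl
      · rfl
    rw [pow_succ, mul_assoc, key, mul_zero]

/-- the representation -/
def rho (a : ℕ) : A →ₐ[ℚ] Module.End ℚ (ℕ → ℚ) :=
  RingQuot.liftAlgHom ℚ ⟨FreeAlgebra.lift ℚ ![X' a, Y' a], by
    intro u v h
    cases h with
    | gap b c h =>
      simp only [map_mul, map_pow, map_zero, gx, gy, FreeAlgebra.lift_ι_apply]
      exact rep_gap a b c h
    | len b =>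
      simp only [map_mul, map_pow, map_zero, gx, gy, FreeAlgebra.lift_ι_apply]
      exact rep_len a b⟩

theorem rho_x (a : ℕ) : rho a x = X' a := by
  rw [rho, x, RingQuot.liftAlgHom_mkAlgHom_apply, gx, FreeAlgebra.lift_ι_apply]; rfl

theorem rho_y (a : ℕ) : rho a y = Y' a := by
  rw [rho, y, RingQuot.liftAlgHom_mkAlgHom_apply, gy, FreeAlgebra.lift_ι_apply]; rfl

theorem word_ne_zero (a : ℕ) : (y * x ^ a) ^ a ≠ 0 := by
  classical
  intro h
  have h1 := congrArg (fun z => rho a z (fun _ => (1 : ℚ)) 0) h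
  simp only [map_pow, map_mul, rho_x, rho_y, map_zero] at h1
  rw [yx_pow, if_pos] at h1
  · exact one_ne_zero h1
  · intro t ht
    refine ⟨⟨⟨t, by ring⟩, ?_⟩, ?_⟩
    · have : t * (a + 1) ≤ a * (a + 1) := Nat.mul_le_mul_right _ (by omega)
      omega
    · intro r hr hd
      have : a + 1 ∣ 1 + r := by
        have h2 : a + 1 ∣ 0 + t * (a + 1) := ⟨t, by ring⟩
        have h3 : 0 + t * (a + 1) + 1 + r = (0 + t * (a + 1)) + (1 + r) := by ring
        rw [h3] at hd
        exact (Nat.dvd_add_right h2).1 hd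
      have := Nat.le_of_dvd (by omega) this
      omega

/-- The negation of the preceding statement: Every finitely generated associative algebra over a field with polynomially bounded growth (finite GK dimension) has a nilpotent two-sided ideal containing every nilpotent two-sided ideal. -/
theorem result :
    ¬ (∀ (k : Type) [Field k] (A : Type) [Ring A] [Algebra k A],
      Algebra.FiniteType k A →
      (∃ V : Submodule k A, FiniteDimensional k V ∧ (1 : A) ∈ V ∧
          Algebra.adjoin k (V : Set A) = ⊤ ∧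
          ∃ C d : ℕ, ∀ n : ℕ, Module.finrank k ↥(V ^ n) ≤ C * (n + 1) ^ d) →
      ∃ N : TwoSidedIdeal A,
        (∃ m : ℕ, ∀ f : Fin m → A, (∀ i, f i ∈ N) → (List.ofFn f).prod = 0) ∧
        ∀ I : TwoSidedIdeal A,
          (∃ m : ℕ, ∀ f : Fin m → A, (∀ i, f i ∈ I) → (List.ofFn f).prod = 0) → I ≤ N) := by
  intro H
  obtain ⟨N, ⟨m, hm⟩, hN⟩ := H ℚ A
    (Algebra.FiniteType.of_surjective (RingQuot.mkAlgHom ℚ Rel) (RingQuot.mkAlgHom_surjective ℚ Rel))
    ⟨V, FiniteDimensional.span_of_finite ℚ (by simp), Submodule.subset_span (by simp), by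
      rw [eq_top_iff, ← adjoin_top]
      exact Algebra.adjoin_mono Submodule.subset_span, 2, 4, V_growth⟩
  have hI := hN (I (2 * m)) (I_nilp _)
  have hmem : (y * x ^ (2 * m)) ^ 2 ∈ N := by
    apply hI
    rw [mem_I]
    have : (y * x ^ (2 * m)) ^ 2 = W (2 * m) 1 0 (2 * m) := by
      simp only [W, pow_zero, one_mul, pow_one, pow_two, mul_assoc]
    rw [this]
    exact W_mem _ _ _ _ _ le_rfl
  have h := hm (fun _ => (y * x ^ (2 * m)) ^ 2) (fun _ => hmem)
  rw [List.ofFn_const, List.prod_replicate, ← pow_mul] at h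
  exact word_ne_zero (2 * m) h

end

end Pool.Agent.S02538
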