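import Pool.Statements.S04908

set_option autoImplicit false
open Pool Pool.MP_68b5a7_an

namespace Pool.Agent.S04908

open Set

/-- left end points, right end points and translations of the first interval exchange -/
noncomputable def la (b : ℝ) : Fin 3 → ℝ := ![0, 1 / 4, 1 / 4 + b]
noncomputable def ra (b : ℝ) : Fin 3 → ℝ := ![1 / 4, 1 / 4 + b, 1]
noncomputable def va (b : ℝ) : Fin 3 → ℝ := ![3 / 4, 1 / 2 - b, -(1 / 4 + b)]

/-- the same for the mirror image of the first interval exchange -/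
noncomputable def lb (b : ℝ) : Fin 3 → ℝ := ![0, 3 / 4 - b, 3 / 4]
noncomputable def rb (b : ℝ) : Fin 3 → ℝ := ![3 / 4 - b, 3 / 4, 1]
noncomputable def vb (b : ℝ) : Fin 3 → ℝ := ![1 / 4 + b, b - 1 / 2, -(3 / 4)]

noncomputable def T1 (b x : ℝ) : ℝ :=
  if x < 1 / 4 then x + 3 / 4 else if x < 1 / 4 + b then x + (1 / 2 - b) else x + -(1 / 4 + b)

noncomputable def T2 (b y : ℝ) : ℝ :=
  if y < 3 / 4 - b then y + (1 / 4 + b) else if y < 3 / 4 then y + (b - 1 / 2) else y + -(3 / 4)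

variable {b : ℝ}

lemma disj3 {l r : Fin 3 → ℝ} (h1 : r 0 ≤ l 1) (h2 : r 1 ≤ l 2) (h3 : r 0 ≤ l 2) :
    Pairwise (fun i j : Fin 3 => Disjoint (Ico (l i) (r i)) (Ico (l j) (r j))) := by
  have key : ∀ i j : Fin 3, i < j → Disjoint (Ico (l i) (r i)) (Ico (l j) (r j)) := by
    intro i j hij
    rw [Set.disjoint_left]
    intro x hx hx'
    simp only [mem_Ico] at hx hx'
    fin_cases i <;> fin_cases j <;> simp_all <;> linarith
  intro i j hij
  rcases lt_or_gt_of_ne hij with h | h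
  · exact key i j h
  · exact (key j i h).symm

/-- other order of the intervals -/
lemma disj3' {l r : Fin 3 → ℝ} (h1 : r 2 ≤ l 1) (h2 : r 1 ≤ l 0) (h3 : r 2 ≤ l 0) :
    Pairwise (fun i j : Fin 3 => Disjoint (Ico (l i) (r i)) (Ico (l j) (r j))) := by
  have key : ∀ i j : Fin 3, i < j → Disjoint (Ico (l i) (r i)) (Ico (l j) (r j)) := by
    intro i j hij
    rw [Set.disjoint_left]
    intro x hx hx'
    simp only [mem_Ico] at hx hx'
    fin_cases i <;> fin_cases j <;> simp_all <;> linarith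
  intro i j hij
  rcases lt_or_gt_of_ne hij with h | h
  · exact key i j h
  · exact (key j i h).symm

lemma disjProd {l r l' r' : Fin 3 → ℝ}
    (h : Pairwise (fun i j : Fin 3 => Disjoint (Ico (l i) (r i)) (Ico (l j) (r j))))
    (h' : Pairwise (fun i j : Fin 3 => Disjoint (Ico (l' i) (r' i)) (Ico (l' j) (r' j)))) :
    Pairwise (fun p q : Fin (3 * 3) =>
      Disjoint (Ico (l (finProdFinEquiv.symm p).1) (r (finProdFinEquiv.symm p).1) ×ˢ
          Ico (l' (finProdFinEquiv.symm p).2) (r' (finProdFinEquiv.symm p).2))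
        (Ico (l (finProdFinEquiv.symm q).1) (r (finProdFinEquiv.symm q).1) ×ˢ
          Ico (l' (finProdFinEquiv.symm q).2) (r' (finProdFinEquiv.symm q).2))) := by
  intro p q hpq
  have hne : finProdFinEquiv.symm p ≠ finProdFinEquiv.symm q := fun h => hpq (by simpa using h)
  rw [Set.disjoint_prod]
  by_cases h1 : (finProdFinEquiv.symm p).1 = (finProdFinEquiv.symm q).1
  · right
    exact h' fun h2 => hne (Prod.ext h1 h2)
  · left
    exact h h1

lemma unionProd {l r l' r' : Fin 3 → ℝ}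
    (h : (⋃ i, Ico (l i) (r i)) = Ico (0 : ℝ) 1) (h' : (⋃ i, Ico (l' i) (r' i)) = Ico (0 : ℝ) 1) :
    (⋃ p : Fin (3 * 3), Ico (l (finProdFinEquiv.symm p).1) (r (finProdFinEquiv.symm p).1) ×ˢ
          Ico (l' (finProdFinEquiv.symm p).2) (r' (finProdFinEquiv.symm p).2)) =
      Ico (0 : ℝ) 1 ×ˢ Ico (0 : ℝ) 1 := by
  ext ⟨x, y⟩
  have hx : x ∈ Ico (0 : ℝ) 1 ↔ ∃ i, x ∈ Ico (l i) (r i) := by rw [← h, mem_iUnion]
  have hy : y ∈ Ico (0 : ℝ) 1 ↔ ∃ i, y ∈ Ico (l' i) (r' i) := by rw [← h', mem_iUnion]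
  rw [mem_prod, hx, hy]
  simp only [mem_iUnion, mem_prod]
  constructor
  · rintro ⟨p, hp1, hp2⟩
    exact ⟨⟨_, hp1⟩, ⟨_, hp2⟩⟩
  · rintro ⟨⟨i, hi⟩, ⟨j, hj⟩⟩
    refine ⟨finProdFinEquiv (i, j), ?_, ?_⟩
    · simpa using hi
    · simpa using hj

lemma union_a (hb0 : 0 < b) (hb1 : b < 3 / 4) : (⋃ i, Ico (la b i) (ra b i)) = Ico (0 : ℝ) 1 := by
  ext x
  simp only [mem_iUnion, mem_Ico, Fin.exists_fin_succ, IsEmpty.exists_iff, la, ra]
  simp
  constructor
  · rintro (h | h | h) <;> constructor <;> linarith [h.1, h.2]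
  · rintro ⟨h0, h1⟩
    by_cases hx : x < 1 / 4
    · left; constructor <;> [exact h0; simpa using hx]
    · by_cases hx' : x < 1 / 4 + b
      · right; left; constructor <;> [simpa using not_lt.1 hx; simpa using hx']
      · right; right; constructor <;> [simpa using not_lt.1 hx'; exact h1]

lemma union_b (hb0 : 0 < b) (hb1 : b < 3 / 4) : (⋃ i, Ico (lb b i) (rb b i)) = Ico (0 : ℝ) 1 := by
  ext x
  simp only [mem_iUnion, mem_Ico, Fin.exists_fin_succ, IsEmpty.exists_iff, lb, rb]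
  simp
  constructor
  · rintro (h | h | h) <;> constructor <;> linarith [h.1, h.2]
  · rintro ⟨h0, h1⟩
    by_cases hx : x < 3 / 4 - b
    · left; constructor <;> [exact h0; exact hx]
    · by_cases hx' : x < 3 / 4
      · right; left; constructor <;> linarith
      · right; right; constructor <;> linarith

lemma union_a' (hb0 : 0 < b) (hb1 : b < 3 / 4) :
    (⋃ i, Ico (la b i + va b i) (ra b i + va b i)) = Ico (0 : ℝ) 1 := by
  ext x
  simp only [mem_iUnion, mem_Ico, Fin.exists_fin_succ, IsEmpty.exists_iff, la, ra, va]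
  simp
  constructor
  · rintro (h | h | h) <;> constructor <;> linarith [h.1, h.2]
  · rintro ⟨h0, h1⟩
    by_cases hx : x < 3 / 4 - b
    · right; right; constructor <;> linarith
    · by_cases hx' : x < 3 / 4
      · right; left; constructor <;> linarith
      · left; constructor <;> linarith

lemma union_b' (hb0 : 0 < b) (hb1 : b < 3 / 4) :
    (⋃ i, Ico (lb b i + vb b i) (rb b i + vb b i)) = Ico (0 : ℝ) 1 := by
  ext x
  simp only [mem_iUnion, mem_Ico, Fin.exists_fin_succ, IsEmpty.exists_iff, lb, rb, vb]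
  simp
  constructor
  · rintro (h | h | h) <;> constructor <;> linarith [h.1, h.2]
  · rintro ⟨h0, h1⟩
    by_cases hx : x < 1 / 4
    · right; right; constructor <;> linarith
    · by_cases hx' : x < 1 / 4 + b
      · right; left; constructor <;> linarith
      · left; constructor <;> linarith

/-- The points of the orbit. -/
def P (b v : ℝ) : Prop := 0 < v ∧ v < 1 ∧ ∃ k1 k2 k3 : ℕ, 1 ≤ k1 ∧
  v = k1 * (3 / 4) + k2 * (1 / 2 - b) + k3 * (-(1 / 4 + b))

lemma ratl (hb : Irrational b) {k2 k3 : ℕ} {p q : ℤ} (hq : q ≠ 0)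
    (h : ((k2 + k3 : ℕ) : ℝ) * b * q = p) : k2 + k3 = 0 := by
  by_contra hne
  apply hb
  refine ⟨(p : ℚ) / ((k2 + k3 : ℕ) * q), ?_⟩
  have h1 : ((k2 + k3 : ℕ) : ℝ) ≠ 0 := by exact_mod_cast hne
  have h2 : (q : ℝ) ≠ 0 := by exact_mod_cast hq
  push_cast
  push_cast at h h1
  rw [← h]
  field_simp

lemma P_ne1 (hb : Irrational b) {v : ℝ} (h : P b v) : v ≠ 1 / 4 := by
  obtain ⟨_, _, k1, k2, k3, hk, rfl⟩ := h
  intro h
  have h0 := ratl hb (k2 := k2) (k3 := k3) (p := 3 * k1 + 2 * k2 - k3 - 1) (q := 4)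
    (by norm_num) (by push_cast; linarith)
  have h2 : k2 = 0 := by omega
  have h3 : k3 = 0 := by omega
  subst h2; subst h3
  simp at h
  have : ((3 * k1 : ℕ) : ℝ) = ((1 : ℕ) : ℝ) := by push_cast; linarith
  have := Nat.cast_injective this
  omega

lemma P_ne2 (hb : Irrational b) {v : ℝ} (h : P b v) : v ≠ 1 / 4 + b := by
  obtain ⟨_, _, k1, k2, k3, hk, rfl⟩ := h
  intro h
  have h0 := ratl hb (k2 := k2) (k3 := k3 + 1) (p := 3 * k1 + 2 * k2 - k3 - 1) (q := 4)
    (by norm_num) (by push_cast; linarith)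
  omega

lemma P_T1 (hb : Irrational b) (hb0 : 0 < b) (hb1 : b < 3 / 4) {v : ℝ} (h : P b v) :
    P b (T1 b v) ∧ T2 b (1 - v) = 1 - T1 b v := by
  have n1 := P_ne1 hb h
  have n2 := P_ne2 hb h
  obtain ⟨h0, h1, k1, k2, k3, hk, hv⟩ := h
  unfold T1 T2
  rcases lt_or_gt_of_ne n1 with c1 | c1
  · rw [if_pos c1, if_neg (by linarith), if_neg (by linarith)]
    refine ⟨⟨by linarith, by linarith, k1 + 1, k2, k3, by omega, ?_⟩, by ring⟩
    push_cast; linarith
  · rw [if_neg (by linarith)]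
    rcases lt_or_gt_of_ne n2 with c2 | c2
    · rw [if_pos c2, if_neg (by linarith), if_pos (by linarith)]
      refine ⟨⟨by linarith, by linarith, k1, k2 + 1, k3, by omega, ?_⟩, by ring⟩
      push_cast; linarith
    · rw [if_neg (by linarith), if_pos (by linarith)]
      refine ⟨⟨by linarith, by linarith, k1, k2, k3 + 1, by omega, ?_⟩, by ring⟩
      push_cast; linarith

noncomputable def phi (b : ℝ) (x : ℝ × ℝ) : ℝ × ℝ := (T1 b x.1, T2 b x.2)

lemma orbit (hb : Irrational b) (hb0 : 0 < b) (hb1 : b < 3 / 4) (n : ℕ) :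
    ∃ v, P b v ∧ (phi b)^[n + 1] (0, 3 / 4 - b) = (v, 1 - v) := by
  induction n with
  | zero =>
    refine ⟨3 / 4, ⟨by norm_num, by norm_num, 1, 0, 0, le_rfl, by simp⟩, ?_⟩
    simp only [zero_add, Function.iterate_one, phi, T1, T2]
    rw [if_pos (by norm_num), if_neg (by linarith), if_pos (by linarith)]
    ext <;> simp
    ring
  | succ n ih =>
    obtain ⟨v, hv, h⟩ := ih
    obtain ⟨h1, h2⟩ := P_T1 hb hb0 hb1 hv
    refine ⟨T1 b v, h1, ?_⟩
    rw [Function.iterate_succ_apply', h, phi, h2]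

/-- The negation of the preceding statement: For every partition of [0,1)² into finitely many half-open rectangles whose translates also partition it, the piecewise-translation map returns every point to within ε of itself, in Euclidean torus distance, at some time N ≥ 1. -/
theorem result :
    ¬ (∀ (m : ℕ) (a1 b1 a2 b2 v1 v2 : Fin m → ℝ) (φ : ℝ × ℝ → ℝ × ℝ),
      Pairwise (fun r s : Fin m =>
        Disjoint (Set.Ico (a1 r) (b1 r) ×ˢ Set.Ico (a2 r) (b2 r))
          (Set.Ico (a1 s) (b1 s) ×ˢ Set.Ico (a2 s) (b2 s))) →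
      (⋃ r : Fin m, Set.Ico (a1 r) (b1 r) ×ˢ Set.Ico (a2 r) (b2 r))
          = Set.Ico (0:ℝ) 1 ×ˢ Set.Ico (0:ℝ) 1 →
      Pairwise (fun r s : Fin m =>
        Disjoint
          (Set.Ico (a1 r + v1 r) (b1 r + v1 r) ×ˢ Set.Ico (a2 r + v2 r) (b2 r + v2 r))
          (Set.Ico (a1 s + v1 s) (b1 s + v1 s) ×ˢ Set.Ico (a2 s + v2 s) (b2 s + v2 s))) →
      (⋃ r : Fin m,
          Set.Ico (a1 r + v1 r) (b1 r + v1 r) ×ˢ Set.Ico (a2 r + v2 r) (b2 r + v2 r))
          = Set.Ico (0:ℝ) 1 ×ˢ Set.Ico (0:ℝ) 1 →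
      (∀ r : Fin m, ∀ x ∈ Set.Ico (a1 r) (b1 r) ×ˢ Set.Ico (a2 r) (b2 r),
          φ x = (x.1 + v1 r, x.2 + v2 r)) →
      ∀ x ∈ Set.Ico (0:ℝ) 1 ×ˢ Set.Ico (0:ℝ) 1, ∀ ε : ℝ, 0 < ε →
        ∃ N : ℕ, 1 ≤ N ∧ ∃ k1 k2 : ℤ,
          ((φ^[N] x).1 - x.1 + (k1 : ℝ)) ^ 2 + ((φ^[N] x).2 - x.2 + (k2 : ℝ)) ^ 2 ≤ ε ^ 2) := by
  intro H
  obtain ⟨b, hbdef⟩ : ∃ b : ℝ, b = Real.sqrt 2 / 4 := ⟨_, rfl⟩
  have hs : Real.sqrt 2 * Real.sqrt 2 = 2 := Real.mul_self_sqrt (by norm_num)
  have hs0 : 0 ≤ Real.sqrt 2 := Real.sqrt_nonneg 2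
  have hs1 : Real.sqrt 2 < 1.42 := by nlinarith
  have hs2 : 1.41 < Real.sqrt 2 := by nlinarith
  have hb : Irrational b := by
    rw [hbdef]
    exact irrational_sqrt_two.div_natCast (m := 4) (by norm_num)
  have hb0 : 0 < b := by rw [hbdef]; linarith
  have hb1 : b < 3 / 4 := by rw [hbdef]; linarith
  obtain ⟨N, hN, k1, k2, hk⟩ := H (3 * 3)
    (fun p => la b (finProdFinEquiv.symm p).1) (fun p => ra b (finProdFinEquiv.symm p).1)
    (fun p => lb b (finProdFinEquiv.symm p).2) (fun p => rb b (finProdFinEquiv.symm p).2)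
    (fun p => va b (finProdFinEquiv.symm p).1) (fun p => vb b (finProdFinEquiv.symm p).2)
    (phi b)
    (disjProd (disj3 (by simp [la, ra]) (by simp [la, ra]) (by simp [la, ra]; linarith))
      (disj3 (by simp [lb, rb]) (by simp [lb, rb]) (by simp [lb, rb]; linarith)))
    (unionProd (union_a hb0 hb1) (union_b hb0 hb1))
    (disjProd (l := fun i => la b i + va b i) (r := fun i => ra b i + va b i)
      (l' := fun i => lb b i + vb b i) (r' := fun i => rb b i + vb b i)
      (disj3' (by simp [la, ra, va]; linarith) (by simp [la, ra, va]; linarith)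
        (by simp [la, ra, va]; linarith))
      (disj3' (by simp [lb, rb, vb]; linarith) (by simp [lb, rb, vb]; linarith)
        (by simp [lb, rb, vb]; linarith)))
    (unionProd (l := fun i => la b i + va b i) (r := fun i => ra b i + va b i)
      (l' := fun i => lb b i + vb b i) (r' := fun i => rb b i + vb b i)
      (union_a' hb0 hb1) (union_b' hb0 hb1))
    (by
      intro p x hx
      obtain ⟨x, y⟩ := x
      simp only [mem_prod, mem_Ico] at hx
      generalize finProdFinEquiv.symm p = ij at hx ⊢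
      obtain ⟨i, j⟩ := ij
      simp only at hx ⊢
      obtain ⟨hx, hy⟩ := hx
      have e1 : T1 b x = x + va b i := by
        unfold T1
        fin_cases i <;> simp [la, ra] at hx <;> simp only [va]
        · rw [if_pos (by linarith [hx.2])]; simp
        · rw [if_neg (by linarith [hx.1]), if_pos (by linarith [hx.2])]; simp
        · rw [if_neg (by linarith [hx.1]), if_neg (by linarith [hx.1])]; simp
      have e2 : T2 b y = y + vb b j := by
        unfold T2
        fin_cases j <;> simp [lb, rb] at hy <;> simp only [vb]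
        · rw [if_pos (by linarith [hy.2])]; simp
        · rw [if_neg (by linarith [hy.1]), if_pos (by linarith [hy.2])]; simp
        · rw [if_neg (by linarith [hy.1]), if_neg (by linarith [hy.1])]; simp
      simp only [phi, e1, e2])
    (0, 3 / 4 - b) (by simp only [mem_prod, mem_Ico]; refine ⟨⟨le_rfl, by norm_num⟩, ?_, ?_⟩ <;> linarith)
    (1 / 4) (by norm_num)
  obtain ⟨n, rfl⟩ : ∃ n, N = n + 1 := ⟨N - 1, by omega⟩
  obtain ⟨v, hv, horb⟩ := orbit hb hb0 hb1 n
  rw [horb] at hk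
  simp only at hk
  have hsum : (1 / 4 + b + ((k1 + k2 : ℤ) : ℝ)) ^ 2 ≤ 1 / 8 := by
    push_cast
    nlinarith [sq_nonneg ((v - 0 + (k1 : ℝ)) - (1 - v - (3 / 4 - b) + (k2 : ℝ)))]
  have hb2 : 0.6 < 1 / 4 + b := by rw [hbdef]; linarith
  have hb3 : 1 / 4 + b < 0.61 := by rw [hbdef]; linarith
  rcases le_or_gt 0 (k1 + k2) with hle | hlt
  · have : (0 : ℝ) ≤ ((k1 + k2 : ℤ) : ℝ) := by exact_mod_cast hle
    nlinarith
  · have h' : k1 + k2 ≤ -1 := by omega
    have : ((k1 + k2 : ℤ) : ℝ) ≤ -1 := by exact_mod_cast h'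
    nlinarith

end Pool.Agent.S04908
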