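import Pool.Statements.S04950
import Pool.Agent.L5helper77.RealPart3

set_option autoImplicit false
open Pool Pool.MP_6b57c7_an

namespace Pool.Agent.S04950

open MeasureTheory Set Filter Topology Pool.Agent.L5helper77.RealPart
open scoped ComplexConjugate NNReal ENNReal

noncomputable section

/-- the closed ball of `ℂ²` -/
def B : Set E := {z | q z ≤ 1}

/-- radial projection -/
def π (z : E) : E := fun i => z i / ((Real.sqrt (q z) : ℝ) : ℂ)

lemma isClosed_B : IsClosed B := isClosed_le continuous_q continuous_const

lemma isCompact_B : IsCompact B := by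
  refine Metric.isCompact_of_isClosed_isBounded isClosed_B ?_
  refine (Metric.isBounded_closedBall (x := (0 : E)) (r := 1)).subset fun z hz => ?_
  rw [mem_closedBall_zero_iff]
  have h1 := norm_sq_le_q z
  have h2 : q z ≤ 1 := hz
  nlinarith [norm_nonneg z]

lemma measurable_π : Measurable π := by
  refine measurable_pi_lambda _ fun i => ?_
  have h1 : Measurable fun z : E => ((Real.sqrt (q z) : ℝ) : ℂ) :=
    Complex.measurable_ofReal.comp (continuous_q.measurable.sqrt)
  exact (measurable_pi_apply i).div h1

lemma π_mem {z : E} (hz : z ≠ 0) : π z ∈ S := by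
  have h0 : 0 < q z := by
    have h1 := norm_sq_le_q z
    have h2 : 0 < ‖z‖ := norm_pos_iff.2 hz
    nlinarith
  show ∑ i, ‖z i / ((Real.sqrt (q z) : ℝ) : ℂ)‖ ^ 2 = 1
  have h1 : ∀ i, ‖z i / ((Real.sqrt (q z) : ℝ) : ℂ)‖ ^ 2 = ‖z i‖ ^ 2 / q z := by
    intro i
    rw [norm_div, div_pow, Complex.norm_real, Real.norm_of_nonneg (Real.sqrt_nonneg _),
      Real.sq_sqrt h0.le]
  simp only [h1]
  rw [← Finset.sum_div]
  exact div_self h0.ne'

/-- the measure on the sphere -/
def ν : Measure E := (volume.restrict B).map π

instance : IsFiniteMeasure (volume.restrict B) := ⟨by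
  rw [Measure.restrict_apply_univ]; exact isCompact_B.measure_lt_top⟩

instance : IsFiniteMeasure ν := by unfold ν; infer_instance

lemma ν_compl : ν Sᶜ = 0 := by
  unfold ν
  rw [Measure.map_apply measurable_π isClosed_S.measurableSet.compl]
  have h1 : π ⁻¹' Sᶜ ⊆ {0} := by
    intro z hz
    by_contra h
    exact hz (π_mem h)
  refine measure_mono_null h1 ?_
  exact le_antisymm ((Measure.restrict_apply_le _ _).trans (by simp)) zero_le

lemma ν_restrict : ν.restrict S = ν := by
  refine Measure.restrict_eq_self_of_ae_mem ?_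
  exact ν_compl

lemma ν_S : ν S ≠ 0 := by
  intro h
  have h1 : ν univ = 0 := by
    have : ν (S ∪ Sᶜ) ≤ ν S + ν Sᶜ := measure_union_le _ _
    rw [union_compl_self, h, ν_compl, add_zero] at this
    exact le_antisymm this zero_le
  unfold ν at h1
  rw [Measure.map_apply measurable_π MeasurableSet.univ, preimage_univ,
    Measure.restrict_apply_univ] at h1
  have h2 : 0 < (volume : Measure E) B := by
    refine Measure.measure_pos_of_nonempty_interior _ ⟨0, ?_⟩
    rw [mem_interior]
    refine ⟨{z | q z < 1}, fun z (hz : q z < 1) => (show q z ≤ 1 from hz.le),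
      isOpen_lt continuous_q continuous_const, ?_⟩
    simp [q]
  exact h2.ne' h1

lemma int_eq {G : Type} [NormedAddCommGroup G] [NormedSpace ℝ G] (F : E → G)
    (hF : AEStronglyMeasurable F ν) :
    ∫ z in B, F (π z) = ∫ z in S, F z ∂ν := by
  rw [ν_restrict]
  exact (integral_map measurable_π.aemeasurable hF).symm

lemma rot_preserving (c : Circle) :
    MeasurePreserving (fun z : E => fun i => (rotation c) (z i)) volume volume :=
  volume_preserving_pi (fun _ => (rotation c).measurePreserving)

lemma q_rot (c : Circle) (z : E) : q (fun i => (rotation c) (z i)) = q z := by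
  unfold q
  refine Finset.sum_congr rfl fun i _ => ?_
  rw [(rotation c).norm_map]

lemma π_rot (c : Circle) (z : E) :
    π (fun i => (rotation c) (z i)) = fun i => (c : ℂ) * π z i := by
  funext i
  unfold π
  rw [q_rot]
  have h : (fun i => (rotation c) (z i)) i = (c : ℂ) * z i := rfl
  rw [h, mul_div_assoc]

lemma int_rot (c : Circle) (F : E → ℂ) :
    ∫ z in B, F (fun i => (c : ℂ) * π z i) = ∫ z in B, F (π z) := by
  have h1 := (rot_preserving c).setIntegral_preimage_emb
    (by
      have : (fun z : E => fun i => (rotation c) (z i)) =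
        (MeasurableEquiv.piCongrRight fun _ : Fin 2 =>
          (rotation c).toHomeomorph.toMeasurableEquiv) := by
        funext z i; rfl
      rw [this]
      exact MeasurableEquiv.measurableEmbedding _) (fun z => F (π z)) B
  have h2 : (fun z : E => fun i => (rotation c) (z i)) ⁻¹' B = B := by
    ext z
    simp only [B, mem_preimage, mem_ofPred_eq, q_rot]
  rw [h2] at h1
  rw [← h1]
  simp only [π_rot]

open MvPolynomial in
lemma mean_zero (p : P) (hp : constantCoeff p = 0) : ∫ z in S, eval z p ∂ν = 0 := by
  rw [← int_eq _ (continuous_eval p).aestronglyMeasurable]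
  have hmono : ∀ m : Fin 2 →₀ ℕ, m ≠ 0 → ∫ z in B, eval (π z) (monomial m (1 : ℂ)) = 0 := by
    intro m hm
    set d : ℕ := ∑ i, m i with hd
    have hd0 : 0 < d := by
      rw [Nat.pos_iff_ne_zero]
      intro h
      apply hm
      ext i
      have := (Finset.sum_eq_zero_iff.1 h) i (Finset.mem_univ _)
      simpa using this
    set c : Circle := Circle.exp (Real.pi / d) with hc
    have hcd : (c : ℂ) ^ d = -1 := by
      rw [hc, Circle.coe_exp, ← Complex.exp_nat_mul]
      have : (d : ℂ) * (((Real.pi / d : ℝ) : ℂ) * Complex.I) = Real.pi * Complex.I := by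
        push_cast
        have : (d : ℂ) ≠ 0 := by exact_mod_cast hd0.ne'
        field_simp
      rw [this, Complex.exp_pi_mul_I]
    have h1 := int_rot c (fun z => eval z (monomial m (1 : ℂ)))
    have h2 : ∀ z : E, eval (fun i => (c : ℂ) * π z i) (monomial m (1 : ℂ)) =
        - eval (π z) (monomial m (1 : ℂ)) := by
      intro z
      rw [eval_monomial, eval_monomial, one_mul, one_mul,
        Finsupp.prod_fintype _ _ (fun _ => pow_zero _),
        Finsupp.prod_fintype _ _ (fun _ => pow_zero _)]
      simp only [mul_pow]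
      rw [Finset.prod_mul_distrib, Finset.prod_pow_eq_pow_sum, ← hd, hcd]
      ring
    simp only [h2] at h1
    rw [integral_neg] at h1
    exact self_eq_neg.1 h1.symm
  have hsum : ∀ z : E, eval (π z) p = ∑ m ∈ p.support, coeff m p * eval (π z) (monomial m 1) := by
    intro z
    conv_lhs => rw [p.as_sum]
    rw [map_sum]
    refine Finset.sum_congr rfl fun m _ => ?_
    rw [eval_monomial, eval_monomial, one_mul]
  simp only [hsum]
  have hint : ∀ m, Integrable (fun z => coeff m p * eval (π z) (monomial m 1))
      (volume.restrict B) := by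
    intro m
    have h1 : Integrable (fun z : E => eval z (monomial m (1 : ℂ))) ν := by
      rw [← ν_restrict]
      exact (continuous_eval _).continuousOn.integrableOn_compact isCompact_S
    have h2 : Integrable ((fun z : E => eval z (monomial m (1 : ℂ))) ∘ π) (volume.restrict B) :=
      h1.comp_measurable measurable_π
    exact h2.const_mul _
  rw [integral_finsetSum _ fun m _ => hint m]
  refine Finset.sum_eq_zero fun m _ => ?_
  rw [integral_const_mul]
  by_cases hm : m = 0
  · subst hm
    have : coeff 0 p = 0 := hp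
    rw [this, zero_mul]
  · rw [hmono m hm, mul_zero]

/-- The negation of the preceding statement: For every n ≥ 2 there is a constant M such that every holomorphic polynomial f on ℂ^n with f(0) real satisfies ∫ over the unit sphere of ∣f∣ ≤ M times ∫ over the sphere of ∣Re f∣ (sphere measure realized as ball volume pushed radially). -/
theorem result :
    ¬ (∀ n : ℕ, 2 ≤ n → ∃ M : ℝ, ∀ p : MvPolynomial (Fin n) ℂ,
      (MvPolynomial.constantCoeff p).im = 0 →
      ∫ z in {z : Fin n → ℂ | ∑ i, ‖z i‖ ^ 2 ≤ 1},
          ‖MvPolynomial.eval (fun i => z i / ((Real.sqrt (∑ j, ‖z j‖ ^ 2) : ℝ) : ℂ)) p‖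
        ≤ M * ∫ z in {z : Fin n → ℂ | ∑ i, ‖z i‖ ^ 2 ≤ 1},
          |(MvPolynomial.eval (fun i => z i / ((Real.sqrt (∑ j, ‖z j‖ ^ 2) : ℝ) : ℂ)) p).re|) := by
  intro hall
  obtain ⟨M, hM⟩ := hall 2 le_rfl
  obtain ⟨f, hf1, hf2, hf3⟩ := no_bound ν ν_S mean_zero M
  have h1 := hM f (by rw [hf1]; simp)
  have h2 : ∫ z in B, ‖MvPolynomial.eval (π z) f‖ ≤
      M * ∫ z in B, |(MvPolynomial.eval (π z) f).re| := h1
  have hc : Continuous fun z : E => MvPolynomial.eval z f := MvPolynomial.continuous_eval f
  rw [int_eq (fun z => ‖MvPolynomial.eval z f‖) hc.norm.aestronglyMeasurable,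
    int_eq (fun z => |(MvPolynomial.eval z f).re|)
      (Complex.continuous_re.comp hc).abs.aestronglyMeasurable] at h2
  have h3 : ∫ z in S, |(MvPolynomial.eval z f).re| ∂ν = ∫ z in S, (MvPolynomial.eval z f).re ∂ν := by
    refine setIntegral_congr_fun isClosed_S.measurableSet fun z hz => ?_
    exact abs_of_pos (hf2 z hz)
  rw [h3] at h2
  linarith

end

end Pool.Agent.S04950
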