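import Pool.Statements.S05019
import Pool.Agent.L5helper77.Berg3

set_option autoImplicit false
open MeasureTheory
open Pool Pool.MP_70ee11_an

namespace Pool.Agent.S05019

/-- For every α > 4, the weighted Bergman space on the disc with weight (1+α)(1−∣z∣²)^α has a closed z-invariant subspace V not equal to the closure of polynomial multiples of V ⊖ zV. -/
theorem result :
  ∀ α : ℝ, 4 < α →
    ∀ μ : Measure ℂ,
      μ = (volume.restrict (Metric.ball (0 : ℂ) 1)).withDensity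
            (fun z : ℂ => ENNReal.ofReal ((1 + α) * (1 - ‖z‖ ^ 2) ^ α / Real.pi)) →
      ∃ V : Submodule ℂ (Lp ℂ 2 μ),
        IsClosed (V : Set (Lp ℂ 2 μ)) ∧
        (∀ f ∈ V, ∃ g : ℂ → ℂ,
            DifferentiableOn ℂ g (Metric.ball (0 : ℂ) 1) ∧ (f : ℂ → ℂ) =ᵐ[μ] g) ∧
        (∀ f ∈ V, ∃ g ∈ V, (g : ℂ → ℂ) =ᵐ[μ] fun z => z * f z) ∧
        ¬ (V ≤ (Submodule.span ℂ
              {h : Lp ℂ 2 μ | ∃ p : Polynomial ℂ, ∃ w ∈ V,
                (∀ f ∈ V, ∀ g ∈ V,
                    (g : ℂ → ℂ) =ᵐ[μ] (fun z => z * f z) → inner ℂ g w = 0) ∧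
                (h : ℂ → ℂ) =ᵐ[μ] fun z => p.eval z * w z}).topologicalClosure) := by
  rintro α hα μ rfl
  exact Pool.Agent.L5helper77.Berg.fails hα

end Pool.Agent.S05019
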