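import Pool.Statements.S05853
import Pool.Agent.L5helper83.BPMain

set_option autoImplicit false
open Polynomial MeasureTheory
open Pool Pool.MP_b1555f_an

namespace Pool.Agent.S05853

/-- For N=3,4, k<N, j≥1: the monic Bergman orthogonal polynomials of degrees jN+k and (j+1)N+k on the regular N-gon are z^k q(z^N), with q having real roots in (0,1), simple and strictly interlacing. -/
theorem result :
    ∀ N : ℕ, (N = 3 ∨ N = 4) → ∀ k : ℕ, k < N → ∀ j : ℕ, 1 ≤ j →
    ∀ p p' : Polynomial ℂ,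
      p.Monic → p.natDegree = j * N + k →
      (∀ r : Polynomial ℂ, r.natDegree < j * N + k →
        ∫ z in interior (convexHull ℝ {w : ℂ | w ^ N = 1}),
          p.eval z * (starRingEnd ℂ) (r.eval z) = 0) →
      p'.Monic → p'.natDegree = (j + 1) * N + k →
      (∀ r : Polynomial ℂ, r.natDegree < (j + 1) * N + k →
        ∫ z in interior (convexHull ℝ {w : ℂ | w ^ N = 1}),
          p'.eval z * (starRingEnd ℂ) (r.eval z) = 0) →
      ∃ t s : ℕ → ℝ,
        p = X ^ k * (∏ ν ∈ Finset.range j, (X - C ((t ν : ℝ) : ℂ))).comp (X ^ N) ∧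
        p' = X ^ k * (∏ ν ∈ Finset.range (j + 1), (X - C ((s ν : ℝ) : ℂ))).comp (X ^ N) ∧
        0 < s 0 ∧ s j < 1 ∧ ∀ ν, ν < j → s ν < t ν ∧ t ν < s (ν + 1) := by
  intro N hN k hk j hj p p' hp hpd ho hp' hpd' ho'
  rcases hN with rfl | rfl
  · obtain ⟨ω, hω, him⟩ := Pool.L5helper83.BP.exists_omega3
    have hTS : Pool.L5helper83.BP.TS 3 ω (k + 1) :=
      Pool.L5helper83.BP.TSys 3 ω (k + 1) (by linear_combination (ω - 1) * hω) (by omega) (by omega)
        (Pool.L5helper83.BP.chain3 ω hω (k + 1) (by omega) (by omega))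
        (fun t h0 h1 => Pool.L5helper83.BP.pos3 ω hω him (k + 1) (by omega) (by omega) t h0 h1)
    exact Pool.L5helper83.BP.main (Pool.L5helper83.BP.geo3 ω hω him) k hk hTS j hj p p' hp hpd ho
      hp' hpd' ho'
  · have hTS : Pool.L5helper83.BP.TS 4 Complex.I (k + 1) :=
      Pool.L5helper83.BP.TSys 4 Complex.I (k + 1) (by simp) (by omega) (by omega)
        (Pool.L5helper83.BP.chain4 (k + 1) (by omega) (by omega))
        (fun t h0 h1 => Pool.L5helper83.BP.pos4 (k + 1) (by omega) (by omega) t h0 h1)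
    exact Pool.L5helper83.BP.main Pool.L5helper83.BP.geo4 k hk hTS j hj p p' hp hpd ho
      hp' hpd' ho'

end Pool.Agent.S05853
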