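import Pool.Statements.S05875
import Pool.Agent.L5helper81.AnalyticL2

set_option autoImplicit false
open Pool Pool.MP_b414a3_an

namespace Pool.Agent.S05875

/-- For every norm on real ℓ2 equivalent to the standard one and every ε>0, there is an equivalent norm that is real analytic off the origin and differs from the given norm by at most ε on the closed unit ball. -/
theorem result :
    ∀ N : lp (fun _ : ℕ => ℝ) 2 → ℝ,
      (∀ x y : lp (fun _ : ℕ => ℝ) 2, N (x + y) ≤ N x + N y) →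
      (∀ (c : ℝ) (x : lp (fun _ : ℕ => ℝ) 2), N (c • x) = |c| * N x) →
      (∃ a b : ℝ, 0 < a ∧ 0 < b ∧
        ∀ x : lp (fun _ : ℕ => ℝ) 2, a * ‖x‖ ≤ N x ∧ N x ≤ b * ‖x‖) →
      ∀ ε : ℝ, 0 < ε →
        ∃ M : lp (fun _ : ℕ => ℝ) 2 → ℝ,
          (∀ x y : lp (fun _ : ℕ => ℝ) 2, M (x + y) ≤ M x + M y) ∧
          (∀ (c : ℝ) (x : lp (fun _ : ℕ => ℝ) 2), M (c • x) = |c| * M x) ∧
          (∃ a b : ℝ, 0 < a ∧ 0 < b ∧
            ∀ x : lp (fun _ : ℕ => ℝ) 2, a * ‖x‖ ≤ M x ∧ M x ≤ b * ‖x‖) ∧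
          AnalyticOnNhd ℝ M {x : lp (fun _ : ℕ => ℝ) 2 | x ≠ 0} ∧
          ∀ x : lp (fun _ : ℕ => ℝ) 2, ‖x‖ ≤ 1 → |N x - M x| ≤ ε := by
  intro N hadd hsmul hN ε hε
  obtain ⟨a, b, ha, hb, hab⟩ := hN
  obtain ⟨M, h1, h2, h3, h4, h5⟩ := Pool.Agent.L5helper81.AnalyticL2.main (N := N) hadd hsmul ha hb
    (fun x => (hab x).1) (fun x => (hab x).2) (div_pos hε hb)
  refine ⟨M, h1, h2, ⟨a, (1 + ε / b) * b, ha, by positivity, fun x => ⟨(hab x).1.trans (h3 x), ?_⟩⟩,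
    h5, fun x hx => ?_⟩
  · refine (h4 x).trans ?_
    rw [mul_assoc]
    exact mul_le_mul_of_nonneg_left (hab x).2 (by positivity)
  · have g1 := h3 x
    have g2 := h4 x
    have g3 : N x ≤ b := (hab x).2.trans (by nlinarith)
    have g4 : ε / b * N x ≤ ε := by
      calc ε / b * N x ≤ ε / b * b := mul_le_mul_of_nonneg_left g3 (by positivity)
        _ = ε := by field_simp
    rw [abs_le]
    constructor <;> nlinarith

end Pool.Agent.S05875
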