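-- Disproof of the L^infty to BMO bound for rough homogeneous kernels with angular part in L log L:
-- already for angular parts in L^2 (n = 2, odd kernels) the bound fails for some kernel.
import Pool.Statements.S06524
import Pool.Agent.L5helper79.Riv.G

set_option autoImplicit false
open MeasureTheory Filter Topology Metric
open Pool Pool.MP_e7f1de_an

namespace Pool.Agent.S06524

/-- The negation of the preceding statement: For every kernel homogeneous of degree -n, mean zero on the sphere, with angular part in L log L, there is C such that the principal-value operator sends each bounded compactly supported f with ∣f∣≤M to a function of BMO norm at most C·M. -/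
theorem result :
    ¬ (∀ (n : ℕ), 1 ≤ n →
    ∀ (k : EuclideanSpace ℝ (Fin n) → ℝ), Measurable k →
    (∀ x : EuclideanSpace ℝ (Fin n), x ≠ 0 → ∀ t : ℝ, 0 < t →
        k (t • x) = t ^ (-(n : ℤ)) * k x) →
    IntegrableOn k {x : EuclideanSpace ℝ (Fin n) | 1 ≤ ‖x‖ ∧ ‖x‖ ≤ 2} volume →
    (∫ x in {x : EuclideanSpace ℝ (Fin n) | 1 ≤ ‖x‖ ∧ ‖x‖ ≤ 2}, k x) = 0 →
    IntegrableOn (fun x => |k x| * max 0 (Real.log |k x|))
        {x : EuclideanSpace ℝ (Fin n) | 1 ≤ ‖x‖ ∧ ‖x‖ ≤ 2} volume →
    ∃ C : ℝ, ∀ (f : EuclideanSpace ℝ (Fin n) → ℝ) (M : ℝ),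
      Measurable f → HasCompactSupport f → (∀ x, |f x| ≤ M) →
      ∀ g : EuclideanSpace ℝ (Fin n) → ℝ,
        (∀ᵐ x ∂(volume : Measure (EuclideanSpace ℝ (Fin n))),
          Tendsto (fun ε : ℝ => ∫ y in {y : EuclideanSpace ℝ (Fin n) | ε < ‖y‖}, k y * f (x - y))
            (𝓝[>] 0) (𝓝 (g x))) →
        ∀ (c : EuclideanSpace ℝ (Fin n)) (r : ℝ), 0 < r →
          IntegrableOn g (ball c r) volume ∧
          (⨍ x in ball c r, |g x - ⨍ y in ball c r, g y|) ≤ C * M) := by
  intro h
  open Pool.Agent.L5helper79.Riv in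
  -- the phases
  have hφ : ∀ j : ℕ, ∃ φ : ℝ, 1 / 160 ≤ ‖vec (fN_good (Nj_ge j) φ)‖ :=
    fun j => phase_exists (Nj_ge j)
  choose φ hφ using hφ
  obtain ⟨x, hx⟩ := Pool.Agent.L5helper79.Riv.hs_unbounded
    (fun j => Pool.Agent.L5helper79.Riv.vec
      (Pool.Agent.L5helper79.Riv.fN_good (Pool.Agent.L5helper79.Riv.Nj_ge j) (φ j)))
    (by norm_num : (0 : ℝ) < 1 / 160) hφ
  open Pool.Agent.L5helper79.Riv in
  have main : ∃ C : ℝ, ∀ (f : E2 → ℝ) (R : ℝ), Good R f → TT f (prof x) ≤ C := by
    obtain ⟨C, hC⟩ := h 2 (by norm_num) (ker (prof x)) (ker_measurable (prof_meas x))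
      (fun y _ t ht => ker_smul (prof x) y t ht)
      (ker_int_ann (prof_meas x) (prof_int x) (prof_supp x))
      (ker_int_zero (prof x))
      (ker_llogl (prof_meas x) (prof_sq x) (prof_supp x))
    refine ⟨2 * ((volume (ball (0 : E2) 2)).toReal * C), fun f R hf => ?_⟩
    have hex : ∀ᵐ y : E2, ∃ l : ℝ, Tendsto (fun ε : ℝ =>
        ∫ u in {u : E2 | ε < ‖u‖}, ker (prof x) u * f (y - u)) (𝓝[>] 0) (𝓝 l) := by
      filter_upwards [hf.diff] with y hy
      exact pv_exists (prof_meas x) (prof_int x) (prof_supp x) hf.meas hf.bd hf.hcs hy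
    classical
    let g : E2 → ℝ := fun y => if hy : ∃ l : ℝ, Tendsto (fun ε : ℝ =>
        ∫ u in {u : E2 | ε < ‖u‖}, ker (prof x) u * f (y - u)) (𝓝[>] 0) (𝓝 l) then
      Classical.choose hy else 0
    have hg : ∀ᵐ y : E2, Tendsto (fun ε : ℝ =>
        ∫ u in {u : E2 | ε < ‖u‖}, ker (prof x) u * f (y - u)) (𝓝[>] 0) (𝓝 (g y)) := by
      filter_upwards [hex] with y hy
      have : g y = Classical.choose hy := dif_pos hy
      rw [this]
      exact Classical.choose_spec hy
    obtain ⟨hgi, hosc⟩ := hC f 1 hf.meas hf.hcs hf.bd g hg 0 2 (by norm_num)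
    rw [mul_one] at hosc
    set m : ℝ := ⨍ y in ball (0 : E2) 2, g y with hm
    have hvol : 0 < (volume (ball (0 : E2) 2)).toReal :=
      ENNReal.toReal_pos (measure_ball_pos volume _ (by norm_num)).ne' measure_ball_lt_top.ne
    rw [← link hf (prof_meas x) (prof_int x) hg]
    -- the mean can be subtracted
    have hfin : IsFiniteMeasure (volume.restrict (ball (0 : E2) 2)) :=
      ⟨by rw [Measure.restrict_apply_univ]; exact measure_ball_lt_top⟩
    have hav : IntegrableOn av (ball (0 : E2) 2) := by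
      apply Measure.integrableOn_of_bounded (M := 2) measure_ball_lt_top.ne
        av_meas.aestronglyMeasurable
      exact Filter.Eventually.of_forall (fun y => abs_av_le y)
    have hag : IntegrableOn (fun y => av y * g y) (ball (0 : E2) 2) := by
      apply Integrable.bdd_mul (c := 2) hgi av_meas.aestronglyMeasurable
      exact Filter.Eventually.of_forall (fun y => abs_av_le y)
    have e1 : ∫ y in ball (0 : E2) 2, av y * g y = ∫ y in ball (0 : E2) 2, av y * (g y - m) := by
      have : ∀ y, av y * (g y - m) = av y * g y - av y * m := fun y => by ring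
      simp_rw [this]
      rw [integral_sub hag (hav.mul_const m), integral_mul_const, av_int_zero, zero_mul, sub_zero]
    rw [e1]
    have hgm : IntegrableOn (fun y => g y - m) (ball (0 : E2) 2) :=
      hgi.sub (integrable_const m)
    have hagm : IntegrableOn (fun y => av y * (g y - m)) (ball (0 : E2) 2) := by
      apply Integrable.bdd_mul (c := 2) hgm av_meas.aestronglyMeasurable
      exact Filter.Eventually.of_forall (fun y => abs_av_le y)
    have e2 : ∫ y in ball (0 : E2) 2, av y * (g y - m) ≤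
        ∫ y in ball (0 : E2) 2, 2 * |g y - m| := by
      apply integral_mono hagm (hgm.abs.const_mul 2)
      intro y
      simp only
      refine (le_abs_self _).trans ?_
      rw [abs_mul]
      exact mul_le_mul_of_nonneg_right (abs_av_le y) (abs_nonneg _)
    refine e2.trans ?_
    rw [integral_const_mul]
    apply mul_le_mul_of_nonneg_left _ (by norm_num)
    rw [setAverage_eq, smul_eq_mul] at hosc
    have hreal : volume.real (ball (0 : E2) 2) = (volume (ball (0 : E2) 2)).toReal := rfl
    rw [hreal, inv_mul_le_iff₀ hvol] at hosc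
    exact hosc
  obtain ⟨C, hC⟩ := main
  obtain ⟨n, e, he, hlt⟩ := hx C
  have h1 := hC _ _ (Pool.Agent.L5helper79.Riv.good_sum φ n e he)
  rw [Pool.Agent.L5helper79.Riv.TT_sum φ n e (Pool.Agent.L5helper79.Riv.prof_meas x)
    (Pool.Agent.L5helper79.Riv.prof_int x)] at h1
  simp only [Pool.Agent.L5helper79.Riv.inner_vec] at hlt
  linarith

end Pool.Agent.S06524
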