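import Pool.Statements.S07181
import Pool.Agent.Helper635.LLL

set_option autoImplicit false
open Pool Pool.MP_0dd31c_co

namespace Pool.Agent.S07181

open Finset

/-- ranking of a finite set of naturals -/
lemma exists_rank (V : Finset ℕ) : ∃ r : ℕ → ℕ, Set.InjOn r V ∧ (∀ v ∈ V, r v < V.card) ∧
    ∀ j < V.card, ∃ v ∈ V, r v = j := by
  classical
  refine ⟨fun v => if h : v ∈ V then (V.equivFin ⟨v, h⟩ : ℕ) else 0, ?_, ?_, ?_⟩
  · intro v hv w hw h
    have hv' : v ∈ V := hv
    have hw' : w ∈ V := hw
    simp only [hv', hw', dif_pos] at h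
    have := V.equivFin.injective (Fin.ext h)
    exact congrArg Subtype.val this
  · intro v hv
    simp only [hv, dif_pos]
    exact Fin.is_lt _
  · intro j hj
    refine ⟨(V.equivFin.symm ⟨j, hj⟩ : V), (V.equivFin.symm ⟨j, hj⟩).2, ?_⟩
    simp

/-- extension of a colouring of the pairs -/
def ext {m : ℕ} (ω : Fin m → Bool) (j : ℕ) : Bool := if h : j < m then ω ⟨j, h⟩ else false

/-- the red set: from each pair the vertex chosen by `ω` -/
def red {m : ℕ} (V : Finset ℕ) (r : ℕ → ℕ) (ω : Fin m → Bool) : Finset ℕ :=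
  V.filter (fun v => r v / 2 < m ∧ ext ω (r v / 2) = decide (r v % 2 = 0))

lemma card_red (V : Finset ℕ) (r : ℕ → ℕ) (hinj : Set.InjOn r V)
    (hs : ∀ j < V.card, ∃ v ∈ V, r v = j) (m : ℕ) (hm : 2 * m ≤ V.card) (ω : Fin m → Bool) :
    (red V r ω).card = m := by
  classical
  have h1 : (red V r ω).image (fun v => r v / 2) = range m := by
    ext j
    simp only [mem_image, mem_range, red, mem_filter]
    constructor
    · rintro ⟨v, ⟨_, hv, _⟩, rfl⟩
      exact hv
    · intro hj
      cases h : ext ω j with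
      | true =>
        obtain ⟨v, hv, hr⟩ := hs (2 * j) (by omega)
        refine ⟨v, ⟨hv, ?_, ?_⟩, ?_⟩
        · rw [hr]; omega
        · have e1 : r v / 2 = j := by omega
          have e2 : r v % 2 = 0 := by omega
          rw [e1, e2, h]; simp
        · omega
      | false =>
        obtain ⟨v, hv, hr⟩ := hs (2 * j + 1) (by omega)
        refine ⟨v, ⟨hv, ?_, ?_⟩, ?_⟩
        · rw [hr]; omega
        · have e1 : r v / 2 = j := by omega
          have e2 : r v % 2 = 1 := by omega
          rw [e1, e2, h]; simp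
        · omega
  have h2 : Set.InjOn (fun v => r v / 2) (red V r ω : Set ℕ) := by
    intro v hv w hw h
    simp only [red, coe_filter, Set.mem_ofPred_eq] at hv hw h
    apply hinj hv.1 hw.1
    obtain ⟨_, _, hv3⟩ := hv
    obtain ⟨_, _, hw3⟩ := hw
    rw [h, hw3] at hv3
    have h4 : (r w % 2 = 0) ↔ (r v % 2 = 0) := by
      constructor
      · intro h5
        simpa [h5] using hv3.symm
      · intro h5
        simpa [h5] using hv3
    omega
  have h3 := card_image_of_injOn h2
  rw [h1, card_range] at h3
  exact h3.symm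

/-- the coordinates that matter for the edge `A` -/
def coords (m : ℕ) (r : ℕ → ℕ) (A : Finset ℕ) : Finset (Fin m) :=
  univ.filter (fun i : Fin m => ∃ v ∈ A, r v / 2 = (i : ℕ))

/-- the edge `A` is monochromatic -/
def Bad {m : ℕ} (V : Finset ℕ) (r : ℕ → ℕ) (A : Finset ℕ) (ω : Fin m → Bool) : Prop :=
  A ⊆ red V r ω ∨ A ∩ red V r ω = ∅

lemma bad_dep {m : ℕ} (V : Finset ℕ) (r : ℕ → ℕ) (A : Finset ℕ) :
    Helper635.LLL.DependsOn (Bad (m := m) V r A) (coords m r A) := by
  classical
  intro ω ω' h hbad
  have key : ∀ v ∈ A, (v ∈ red V r ω ↔ v ∈ red V r ω') := by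
    intro v hv
    simp only [red, mem_filter]
    by_cases hm : r v / 2 < m
    · have h1 : ext ω (r v / 2) = ext ω' (r v / 2) := by
        simp only [ext, hm, dif_pos]
        apply h
        simp only [coords, mem_filter, mem_univ, true_and]
        exact ⟨v, hv, rfl⟩
      rw [h1]
    · simp [hm]
  rcases hbad with hb | hb
  · left
    intro v hv
    exact (key v hv).1 (hb hv)
  · right
    rw [← not_nonempty_iff_eq_empty] at hb ⊢
    rintro ⟨v, hv⟩
    apply hb
    rw [mem_inter] at hv
    exact ⟨v, mem_inter.2 ⟨hv.1, (key v hv.1).2 hv.2⟩⟩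

lemma count_fixed {m : ℕ} (S : Finset (Fin m)) (f : Fin m → Bool) :
    (univ.filter (fun ω : Fin m → Bool => ∀ i ∈ S, ω i = f i)).card * 2 ^ S.card = 2 ^ m := by
  classical
  have h1 : (univ.filter (fun ω : Fin m → Bool => ∀ i ∈ S, ω i = f i)) =
      Fintype.piFinset (fun i => if i ∈ S then {f i} else univ) := by
    ext ω
    simp only [mem_filter, mem_univ, true_and, Fintype.mem_piFinset]
    constructor
    · intro h i
      by_cases hi : i ∈ S
      · simp [hi, h i hi]
      · simp [hi]
    · intro h i hi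
      simpa [hi] using h i
  rw [h1, Fintype.card_piFinset]
  have h2 : ∀ i : Fin m, (if i ∈ S then ({f i} : Finset Bool) else univ).card =
      if i ∈ S then 1 else 2 := by
    intro i
    by_cases hi : i ∈ S <;> simp [hi]
  rw [prod_congr rfl (fun i _ => h2 i)]
  have h3 : (2 : ℕ) ^ S.card = ∏ i : Fin m, if i ∈ S then 2 else 1 := by
    rw [prod_ite]
    simp
  rw [h3, ← prod_mul_distrib]
  have h4 : ∀ i : Fin m, ((if i ∈ S then 1 else 2) * if i ∈ S then 2 else 1) = 2 := by
    intro i
    by_cases hi : i ∈ S <;> simp [hi]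
  rw [prod_congr rfl (fun i _ => h4 i)]
  simp

lemma card_coords {m N : ℕ} (hN : N ≤ 2 * m + 1) (r : ℕ → ℕ) (A : Finset ℕ)
    (hr : ∀ v ∈ A, r v < N) (hinj : Set.InjOn (fun v => r v / 2) (A : Set ℕ)) :
    A.card ≤ (coords m r A).card + 1 := by
  classical
  have h1 : (A.image (fun v => r v / 2)).card = A.card := card_image_of_injOn hinj
  have h2 : A.image (fun v => r v / 2) ⊆
      insert m ((coords m r A).image (fun i : Fin m => (i : ℕ))) := by
    intro j hj
    rw [mem_image] at hj
    obtain ⟨v, hv, rfl⟩ := hj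
    have := hr v hv
    by_cases h : r v / 2 < m
    · apply mem_insert_of_mem
      rw [mem_image]
      refine ⟨⟨r v / 2, h⟩, ?_, rfl⟩
      simp only [coords, mem_filter, mem_univ, true_and]
      exact ⟨v, hv, rfl⟩
    · have h3 : r v / 2 = m := by omega
      simp only [h3]
      exact mem_insert_self _ _
  have h3 := card_le_card h2
  rw [h1] at h3
  refine h3.trans ((card_insert_le _ _).trans ?_)
  have := card_image_le (s := coords m r A) (f := fun i : Fin m => (i : ℕ))
  omega

lemma cnt_bad {m n : ℕ} (V : Finset ℕ) (r : ℕ → ℕ) (hinj : Set.InjOn r V)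
    (hlt : ∀ v ∈ V, r v < V.card) (hm : m = V.card / 2) (A : Finset ℕ) (hA : A ⊆ V)
    (hn : A.card = n) :
    (Helper635.LLL.cnt (Bad (m := m) V r A) : ℝ) ≤ (4 / 2 ^ n) * Fintype.card (Fin m → Bool) := by
  classical
  by_cases hinj2 : Set.InjOn (fun v => r v / 2) (A : Set ℕ)
  · have hS := card_coords (m := m) (N := V.card) (by omega) r A (fun v hv => hlt v (hA hv)) hinj2
    set S := coords m r A with hSdef
    set f : Fin m → Bool := fun i => decide (∃ v ∈ A, r v / 2 = (i : ℕ) ∧ r v % 2 = 0) with hf
    have h1 : Helper635.LLL.cnt (Bad (m := m) V r A) ≤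
        (univ.filter (fun ω : Fin m → Bool => ∀ i ∈ S, ω i = f i)).card +
        (univ.filter (fun ω : Fin m → Bool => ∀ i ∈ S, ω i = (fun i => !(f i)) i)).card := by
      refine le_trans (card_le_card ?_) (card_union_le _ _)
      intro ω hω
      rw [Helper635.LLL.mem_ev] at hω
      rw [mem_union, mem_filter, mem_filter]
      have hval : ∀ v ∈ A, ∀ i : Fin m, r v / 2 = (i : ℕ) → f i = decide (r v % 2 = 0) := by
        intro v hv i hi
        simp only [hf]
        congr 1
        apply propext
        constructor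
        · rintro ⟨w, hw, hw2, hw3⟩
          have : w = v := hinj2 (mem_coe.2 hw) (mem_coe.2 hv) (by simp only; omega)
          rw [← this]; exact hw3
        · intro h
          exact ⟨v, hv, hi, h⟩
      rcases hω with h | h
      · left
        refine ⟨mem_univ _, fun i hi => ?_⟩
        simp only [hSdef, coords, mem_filter, mem_univ, true_and] at hi
        obtain ⟨v, hv, hvi⟩ := hi
        have h2 := h hv
        simp only [red, mem_filter] at h2
        rw [hval v hv i hvi, ← h2.2.2, ext, dif_pos (by omega)]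
        congr 1
        exact Fin.ext hvi.symm
      · right
        refine ⟨mem_univ _, fun i hi => ?_⟩
        simp only [hSdef, coords, mem_filter, mem_univ, true_and] at hi
        obtain ⟨v, hv, hvi⟩ := hi
        have h2 : v ∉ red V r ω := by
          intro h3
          have : v ∈ A ∩ red V r ω := mem_inter.2 ⟨hv, h3⟩
          rw [h] at this
          simp at this
        have hlt' : r v / 2 < m := by rw [hvi]; exact i.2
        have h4 : ext ω (r v / 2) = ω i := by
          rw [ext, dif_pos hlt']
          congr 1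
          exact Fin.ext hvi
        simp only [red, mem_filter, not_and] at h2
        have h5 := h2 (hA hv) hlt'
        rw [h4] at h5
        simp only [hval v hv i hvi]
        cases hb : ω i <;> cases hc : decide (r v % 2 = 0) <;> simp_all
    have h2 := count_fixed S f
    have h3 := count_fixed S (fun i => !(f i))
    have h4 : Helper635.LLL.cnt (Bad (m := m) V r A) * 2 ^ S.card ≤ 2 * 2 ^ m := by
      calc _ ≤ _ := Nat.mul_le_mul_right _ h1
        _ = 2 * 2 ^ m := by rw [add_mul, h2, h3]; ring
    have h5 : (Helper635.LLL.cnt (Bad (m := m) V r A) : ℝ) * 2 ^ S.card ≤ 2 * 2 ^ m := by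
      exact_mod_cast h4
    have h6 : (2 : ℝ) ^ n ≤ 2 * 2 ^ S.card := by
      rw [← pow_succ']
      exact pow_le_pow_right₀ (by norm_num) (by omega)
    have h7 : (Fintype.card (Fin m → Bool) : ℝ) = 2 ^ m := by simp
    rw [h7, div_mul_eq_mul_div, le_div_iff₀ (by positivity)]
    have h8 : (0 : ℝ) ≤ (Helper635.LLL.cnt (Bad (m := m) V r A) : ℝ) := by positivity
    nlinarith
  · have h0 : Helper635.LLL.cnt (Bad (m := m) V r A) = 0 := by
      rw [Helper635.LLL.cnt, card_eq_zero, eq_empty_iff_forall_notMem]
      intro ω hω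
      rw [Helper635.LLL.mem_ev] at hω
      apply hinj2
      intro v hv w hw hvw
      by_contra hne
      have hv' : v ∈ A := hv
      have hw' : w ∈ A := hw
      have hrne : r v ≠ r w := fun h => hne (hinj (hA hv') (hA hw') h)
      have hlv := hlt v (hA hv')
      have hlw := hlt w (hA hw')
      simp only at hvw
      have hm' : r v / 2 < m := by omega
      have key : (v ∈ red V r ω ↔ w ∉ red V r ω) := by
        simp only [red, mem_filter, hA hv', hA hw', true_and, ← hvw, hm']
        have : (r v % 2 = 0) ↔ ¬ (r w % 2 = 0) := by omega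
        cases ext ω (r v / 2) <;> by_cases h : r w % 2 = 0 <;> simp [h] <;> omega
      rcases hω with h | h
      · exact (key.1 (h hv')) (h hw')
      · have h1 : v ∉ red V r ω := fun h3 => by
          have : v ∈ A ∩ red V r ω := mem_inter.2 ⟨hv', h3⟩
          rw [h] at this; simp at this
        have h2 : w ∉ red V r ω := fun h3 => by
          have : w ∈ A ∩ red V r ω := mem_inter.2 ⟨hw', h3⟩
          rw [h] at this; simp at this
        exact h1 (key.2 h2)
    rw [h0]
    simp only [Nat.cast_zero]
    positivity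

lemma dep_count {m n : ℕ} (F : Finset (Finset ℕ)) (V : Finset ℕ) (hV : V = F.biUnion id)
    (r : ℕ → ℕ) (hinj : Set.InjOn r V) (hF : ∀ A ∈ F, A.card = n) (D : ℝ)
    (hD : ∀ v : ℕ, ((F.filter (fun A => v ∈ A)).card : ℝ) ≤ D) (A : Finset ℕ) (hA : A ∈ F) :
    ((F.filter (fun A' => ¬ Disjoint (coords m r A) (coords m r A'))).card : ℝ) ≤ 2 * n * D := by
  classical
  set W := A.biUnion (fun v => V.filter (fun w => r w / 2 = r v / 2)) with hW
  have hD0 : 0 ≤ D := le_trans (by positivity) (hD 0)
  have hWc : W.card ≤ n * 2 := by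
    rw [← hF A hA]
    apply card_biUnion_le_card_mul
    intro v hv
    have h1 : (V.filter (fun w => r w / 2 = r v / 2)).image r ⊆ {2 * (r v / 2), 2 * (r v / 2) + 1} := by
      intro j hj
      simp only [mem_image, mem_filter] at hj
      obtain ⟨w, ⟨_, hw⟩, rfl⟩ := hj
      simp only [mem_insert, mem_singleton]
      omega
    have h2 : ((V.filter (fun w => r w / 2 = r v / 2)).image r).card =
        (V.filter (fun w => r w / 2 = r v / 2)).card := by
      apply card_image_of_injOn
      intro a ha b hb h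
      simp only [coe_filter, Set.mem_ofPred_eq] at ha hb
      exact hinj ha.1 hb.1 h
    rw [← h2]
    exact (card_le_card h1).trans card_le_two
  have hsub : F.filter (fun A' => ¬ Disjoint (coords m r A) (coords m r A')) ⊆
      W.biUnion (fun w => F.filter (fun A' => w ∈ A')) := by
    intro A' hA'
    rw [mem_filter] at hA'
    obtain ⟨hA'F, hnd⟩ := hA'
    rw [not_disjoint_iff] at hnd
    obtain ⟨i, hi1, hi2⟩ := hnd
    simp only [coords, mem_filter, mem_univ, true_and] at hi1 hi2
    obtain ⟨v, hv, hvi⟩ := hi1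
    obtain ⟨w, hw, hwi⟩ := hi2
    simp only [mem_biUnion, mem_filter, hW]
    refine ⟨w, ⟨v, hv, ?_, by omega⟩, hA'F, hw⟩
    rw [hV, mem_biUnion]
    exact ⟨A', hA'F, hw⟩
  calc ((F.filter (fun A' => ¬ Disjoint (coords m r A) (coords m r A'))).card : ℝ)
      ≤ ((W.biUnion (fun w => F.filter (fun A' => w ∈ A'))).card : ℝ) := by
        exact_mod_cast card_le_card hsub
    _ ≤ ∑ w ∈ W, ((F.filter (fun A' => w ∈ A')).card : ℝ) := by
        exact_mod_cast card_biUnion_le
    _ ≤ ∑ w ∈ W, D := sum_le_sum (fun w _ => hD w)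
    _ = W.card * D := by rw [sum_const, nsmul_eq_mul]
    _ ≤ (n * 2 : ℕ) * D := by
        apply mul_le_mul_of_nonneg_right _ hD0
        exact_mod_cast hWc
    _ = 2 * n * D := by push_cast; ring

/-- For every c in (1,2) there is n0 such that for n ≥ n0 every n-uniform finite hypergraph with all degrees at most c^n has a red set of exactly half (floor) of its vertices such that no edge is all red or all blue. -/
theorem result :
    ∀ c : ℝ, 1 < c → c < 2 →
      ∃ n₀ : ℕ, ∀ n : ℕ, n₀ ≤ n →
        ∀ F : Finset (Finset ℕ),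
          (∀ A ∈ F, A.card = n) →
          (∀ v : ℕ, ((F.filter (fun A => v ∈ A)).card : ℝ) ≤ c ^ n) →
          ∃ R : Finset ℕ, R ⊆ F.biUnion id ∧
            R.card = (F.biUnion id).card / 2 ∧
            ∀ A ∈ F, (A ∩ R).Nonempty ∧ ¬ A ⊆ R := by
  classical
  intro c hc1 hc2
  have hlim : Filter.Tendsto (fun n : ℕ => (32 : ℝ) * ((n : ℝ) ^ 1 * (c / 2) ^ n)) Filter.atTop
      (nhds (32 * 0)) := by
    apply Filter.Tendsto.const_mul
    apply tendsto_pow_const_mul_const_pow_of_abs_lt_one
    rw [abs_of_pos (by positivity)]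
    linarith
  rw [mul_zero] at hlim
  have hev := hlim.eventually (gt_mem_nhds (show (0 : ℝ) < 1 by norm_num))
  obtain ⟨n1, hn1⟩ := Filter.eventually_atTop.1 hev
  refine ⟨max n1 4, fun n hn F hF hdeg => ?_⟩
  have hn4 : 4 ≤ n := le_trans (le_max_right _ _) hn
  have hsmall := hn1 n (le_trans (le_max_left _ _) hn)
  set V := F.biUnion id with hV
  obtain ⟨r, hinj, hlt, hsurj⟩ := exists_rank V
  set m := V.card / 2 with hm
  have hlll := Helper635.LLL.lll (T := Fin m) (C := Bool) F (fun A => Bad (m := m) V r A)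
    (fun A => coords m r A) (fun A _ => bad_dep V r A) (4 / 2 ^ n) (2 ^ (n - 4)) (by positivity)
    (fun A hA => by
      have h := cnt_bad V r hinj hlt hm A (by rw [hV]; exact subset_biUnion_of_mem id hA) (hF A hA)
      convert h)
    (fun A hA => by
      have h1 := dep_count (m := m) F V hV r hinj hF (c ^ n) hdeg A hA
      have h2 : (2 * n * c ^ n : ℝ) ≤ 2 ^ (n - 4) := by
        have h3 : (2 : ℝ) ^ n = 2 ^ (n - 4) * 16 := by
          rw [show (16 : ℝ) = 2 ^ 4 by norm_num, ← pow_add]
          congr 1; omega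
        have h4 : (32 : ℝ) * ((n : ℝ) ^ 1 * (c / 2) ^ n) ≤ 1 := hsmall.le
        rw [div_pow, pow_one, mul_div_assoc', mul_div_assoc', div_le_one (by positivity), h3] at h4
        linarith
      have h5 : ((F.filter (fun A' => ¬ Disjoint (coords m r A) (coords m r A'))).card : ℝ) ≤
          ((2 ^ (n - 4) : ℕ) : ℝ) := by
        rw [Nat.cast_pow, Nat.cast_ofNat]
        exact h1.trans h2
      have h6 := Nat.cast_le.1 h5
      convert h6)
    (by
      have h3 : (2 : ℝ) ^ n = 2 ^ (n - 4) * 16 := by
        rw [show (16 : ℝ) = 2 ^ 4 by norm_num, ← pow_add]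
        congr 1; omega
      push_cast
      rw [h3]
      have : (2 : ℝ) ^ (n - 4) ≠ 0 := by positivity
      field_simp
      norm_num)
    Nat.one_le_two_pow (by simp)
  obtain ⟨ω, hω⟩ := hlll
  refine ⟨red V r ω, filter_subset _ _, card_red V r hinj hsurj m (by omega) ω, fun A hA => ?_⟩
  have h := hω A hA
  simp only [Bad, not_or] at h
  exact ⟨nonempty_iff_ne_empty.2 h.2, h.1⟩

end Pool.Agent.S07181
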