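import Pool.Statements.S07480
import Pool.Agent.L5helper20.Cube.Sub

set_option autoImplicit false
open Classical Filter Topology
open Pool Pool.MP_1cd2aa_co

namespace Pool.Agent.S07480

/-- The negation of the preceding statement: For every m ≥ 7, the largest fraction of 2-dimensional subcubes of the n-cube that can be chosen with no (3m+2)-dimensional subcube having all its 2-subcubes chosen tends to 1 − 1/(m+1)³ as n → ∞. -/
theorem result :
    ¬ (∀ m : ℕ, 7 ≤ m →
      Tendsto
        (fun n : ℕ =>
          ((((Finset.univ : Finset (Finset (Fin n → Option Bool))).filter
              (fun F =>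
                (∀ x ∈ F, (Finset.univ.filter (fun i => x i = none)).card = 2) ∧
                ∀ C : Fin n → Option Bool,
                  (Finset.univ.filter (fun i => C i = none)).card = 3 * m + 2 →
                  ¬ (∀ D : Fin n → Option Bool,
                      (Finset.univ.filter (fun i => D i = none)).card = 2 →
                      (∀ (i : Fin n) (b : Bool), C i = some b → D i = some b) →
                      D ∈ F))).sup Finset.card : ℕ) : ℝ) /
          (((Finset.univ : Finset (Fin n → Option Bool)).filter
              (fun D => (Finset.univ.filter (fun i => D i = none)).card = 2)).card : ℝ))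
        atTop (𝓝 (1 - 1 / ((m : ℝ) + 1) ^ 3))) := by
  intro hmain
  have h := hmain 13 (by norm_num)
  have hge : ∀ᶠ n : ℕ in atTop, (1 - 1 / 4096 : ℝ) ≤
      ((((Finset.univ : Finset (Finset (Fin n → Option Bool))).filter
              (fun F =>
                (∀ x ∈ F, (Finset.univ.filter (fun i => x i = none)).card = 2) ∧
                ∀ C : Fin n → Option Bool,
                  (Finset.univ.filter (fun i => C i = none)).card = 3 * 13 + 2 →
                  ¬ (∀ D : Fin n → Option Bool,
                      (Finset.univ.filter (fun i => D i = none)).card = 2 →
                      (∀ (i : Fin n) (b : Bool), C i = some b → D i = some b) →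
                      D ∈ F))).sup Finset.card : ℕ) : ℝ) /
          (((Finset.univ : Finset (Fin n → Option Bool)).filter
              (fun D => (Finset.univ.filter (fun i => D i = none)).card = 2)).card : ℝ) := by
    filter_upwards [eventually_ge_atTop 2] with n hn
    set Q := (Finset.univ : Finset (Fin n → Option Bool)).filter
              (fun D => (Finset.univ.filter (fun i => D i = none)).card = 2) with hQ
    obtain ⟨v, hv⟩ := L5helper20.Cube.exists_assignment 12 Q
    set B := Q.filter (fun D => L5helper20.Cube.Bad 12 v (L5helper20.Cube.ones D)) with hB
    set G := Q.filter (fun D => ¬ L5helper20.Cube.Bad 12 v (L5helper20.Cube.ones D)) with hG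
    have hBG : B.card + G.card = Q.card := Finset.card_filter_add_card_filter_not _
    have hQpos : 0 < Q.card := by
      rw [Finset.card_pos]
      refine ⟨fun i => if (i : ℕ) < 2 then none else some true, ?_⟩
      simp only [hQ, Finset.mem_filter, Finset.mem_univ, true_and]
      have : (Finset.univ.filter (fun i : Fin n =>
          (if (i : ℕ) < 2 then none else some true : Option Bool) = none))
          = {⟨0, by omega⟩, ⟨1, by omega⟩} := by
        ext i
        simp only [Finset.mem_filter, Finset.mem_univ, true_and, Finset.mem_insert,
          Finset.mem_singleton, Fin.ext_iff]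
        by_cases hi : (i : ℕ) < 2
        · simp only [hi, if_true, true_iff]
          omega
        · simp only [hi, if_false, reduceCtorEq, false_iff]
          omega
      rw [this, Finset.card_pair]
      simp [Fin.ext_iff]
    have hsup : G.card ≤ ((Finset.univ : Finset (Finset (Fin n → Option Bool))).filter
              (fun F =>
                (∀ x ∈ F, (Finset.univ.filter (fun i => x i = none)).card = 2) ∧
                ∀ C : Fin n → Option Bool,
                  (Finset.univ.filter (fun i => C i = none)).card = 3 * 13 + 2 →
                  ¬ (∀ D : Fin n → Option Bool,
                      (Finset.univ.filter (fun i => D i = none)).card = 2 →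
                      (∀ (i : Fin n) (b : Bool), C i = some b → D i = some b) →
                      D ∈ F))).sup Finset.card := by
      refine Finset.le_sup (f := Finset.card) ?_
      simp only [Finset.mem_filter, Finset.mem_univ, true_and]
      refine ⟨fun x hx => ?_, fun C hC hall => ?_⟩
      · have := (Finset.mem_filter.mp hx).1
        simpa [hQ] using this
      · obtain ⟨D, hD1, hD2, hD3⟩ := L5helper20.Cube.exists_bad (m := 13) (by norm_num) v C hC
        have := hall D hD1 hD2
        exact (Finset.mem_filter.mp this).2 hD3
    have hQ' : (0 : ℝ) < Q.card := by exact_mod_cast hQpos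
    rw [le_div_iff₀ hQ']
    have h1 : (2 : ℝ) ^ 12 * B.card ≤ Q.card := by exact_mod_cast hv
    have h2 : (B.card : ℝ) + G.card = Q.card := by exact_mod_cast hBG
    have h3 : (G.card : ℝ) ≤ _ := Nat.cast_le.mpr hsup
    refine le_trans ?_ h3
    linarith
  have := ge_of_tendsto h hge
  norm_num at this

end Pool.Agent.S07480
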