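import Pool.Statements.S10336
import Pool.Agent.L5helper48.Occ

set_option autoImplicit false
open Classical
open Pool Pool.MP_99d978_co

namespace Pool.Agent.S10336

open Pool.Agent.L5helper48.Occ

/-- Masks of the Robertson graph. -/
abbrev robMasks : List ℕ :=
  [147465, 1089, 16393, 1153, 17, 1089, 9, 1089, 129, 9, 17, 65, 1, 9, 1, 1, 1, 1, 0]

/-- Masks of a 4-regular triangle-free graph with 22 vertices. -/
abbrev bigMasks : List ℕ :=
  [525448, 67650, 82440, 8226, 2208, 33026, 2305, 257, 1024, 1060, 1408, 38, 1, 128, 17, 32, 9, 0,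
    2, 0, 0, 0]

/-- The Robertson graph. -/
def rob : SimpleGraph (Fin 19) := graph robMasks

/-- The counterexample. -/
def big : SimpleGraph (Fin 22) := graph bigMasks

instance : DecidableRel rob.Adj := inferInstanceAs (DecidableRel (graph robMasks).Adj)

instance : DecidableRel big.Adj := inferInstanceAs (DecidableRel (graph bigMasks).Adj)

theorem rob_run : run 7 4 robMasks 0 = (6042429501210624, 27930593702445056) := by
  decide +kernel

theorem big_run : run 7 4 bigMasks 0 = (1902846356679032832, 10183231965482713088) := by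
  decide +kernel

theorem rob_deg : ∀ v : Fin 19, (Finset.univ.filter (fun w => rob.Adj v w)).card = 4 := by
  decide +kernel

theorem big_deg : ∀ v : Fin 22, (Finset.univ.filter (fun w => big.Adj v w)).card = 4 := by
  decide +kernel

theorem big_tri : ∀ a b : Fin 22, big.Adj a b → ∀ c : Fin 22, ¬ (big.Adj a c ∧ big.Adj b c) := by
  decide +kernel

theorem rob_tri : ∀ a b : Fin 19, rob.Adj a b → ∀ c : Fin 19, ¬ (rob.Adj b c ∧ rob.Adj c a) := by
  decide +kernel

theorem rob_four : ∀ a b : Fin 19, rob.Adj a b → ∀ c : Fin 19, rob.Adj b c → a ≠ c →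
    ∀ d : Fin 19, rob.Adj c d → rob.Adj d a → b = d := by
  decide +kernel

theorem rob_girth : (5 : ℕ∞) ≤ rob.egirth := by
  rw [SimpleGraph.le_egirth]
  intro a w hw
  have h3 := hw.three_le_length
  by_contra hlt
  have hlt' : w.length < 5 := by
    by_contra hh
    apply hlt
    exact_mod_cast not_lt.1 hh
  have hl : w.length = 3 ∨ w.length = 4 := by omega
  match w, hw, hl with
  | .nil, _, hl => simp at hl
  | .cons h1 .nil, _, hl => simp at hl
  | .cons h1 (.cons h2 .nil), _, hl => simp at hl
  | .cons (v := b) h1 (.cons (v := c) h2 (.cons h3 .nil)), hw, _ =>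
    exact rob_tri a b h1 c ⟨h2, h3⟩
  | .cons (v := b) h1 (.cons (v := c) h2 (.cons (v := d) h3 (.cons h4 .nil))), hw, _ =>
    have hnd := hw.support_nodup
    simp at hnd
    obtain ⟨⟨hbc, hbd, hba⟩, ⟨hcd, hca⟩, hda⟩ := hnd
    exact hbd (rob_four a b h1 c h2 (Ne.symm hca) d h3 h4)
  | .cons h1 (.cons h2 (.cons h3 (.cons h4 (.cons h5 q)))), _, hl =>
    simp at hl

theorem poly_pos (x : ℝ) (hx : 2 ≤ x) :
    0 < 90*x^6 + 729*x^5 - 188*x^4 - 1632*x^3 - 1247*x^2 - 363*x - 38 := by
  obtain ⟨y, rfl⟩ : ∃ y, x = 2 + y := ⟨x - 2, by ring⟩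
  have hy : 0 ≤ y := by linarith
  have h : 90*(2+y)^6 + 729*(2+y)^5 - 188*(2+y)^4 - 1632*(2+y)^3 - 1247*(2+y)^2 - 363*(2+y) - 38 =
      90*y^6 + 1809*y^5 + 12502*y^4 + 40424*y^3 + 64369*y^2 + 44649*y + 7272 := by
    ring
  rw [h]
  positivity

theorem big_free : big.CliqueFree 3 := by
  intro s hs
  rw [SimpleGraph.is3Clique_iff] at hs
  obtain ⟨a, b, c, hab, hac, hbc, _⟩ := hs
  exact big_tri a b hab c ⟨hac, hbc⟩

theorem rob_reg : rob.IsRegularOfDegree 4 := by
  intro v
  rw [← rob_deg v, ← SimpleGraph.card_neighborFinset_eq_degree]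
  congr 1
  ext w
  simp

theorem big_reg : big.IsRegularOfDegree 4 := by
  intro v
  rw [← big_deg v, ← SimpleGraph.card_neighborFinset_eq_degree]
  congr 1
  ext w
  simp

theorem rob_sums :
    (∑ I : Finset (Fin 19), if rob.IsIndepSet (I : Set (Fin 19)) then
      (I.card : ℝ) * (7 / 4 : ℝ) ^ I.card else 0) = S1 (7 / 4) robMasks 0 ∧
    (∑ I : Finset (Fin 19), if rob.IsIndepSet (I : Set (Fin 19)) then
      (7 / 4 : ℝ) ^ I.card else 0) = S0 (7 / 4) robMasks 0 := by
  constructor
  · have := sum_indep robMasks (fun k => (k : ℝ) * (7 / 4 : ℝ) ^ k)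
    refine Eq.trans ?_ (this.trans ?_)
    · rfl
    · unfold S1
      apply Finset.sum_congr rfl
      intro f _
      congr 1
  · have := sum_indep robMasks (fun k => (7 / 4 : ℝ) ^ k)
    refine Eq.trans ?_ (this.trans ?_)
    · rfl
    · unfold S0
      apply Finset.sum_congr rfl
      intro f _
      congr 1

theorem big_sums :
    (∑ I : Finset (Fin 22), if big.IsIndepSet (I : Set (Fin 22)) then
      (I.card : ℝ) * (7 / 4 : ℝ) ^ I.card else 0) = S1 (7 / 4) bigMasks 0 ∧
    (∑ I : Finset (Fin 22), if big.IsIndepSet (I : Set (Fin 22)) then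
      (7 / 4 : ℝ) ^ I.card else 0) = S0 (7 / 4) bigMasks 0 := by
  constructor
  · have := sum_indep bigMasks (fun k => (k : ℝ) * (7 / 4 : ℝ) ^ k)
    refine Eq.trans ?_ (this.trans ?_)
    · rfl
    · unfold S1
      apply Finset.sum_congr rfl
      intro f _
      congr 1
  · have := sum_indep bigMasks (fun k => (7 / 4 : ℝ) ^ k)
    refine Eq.trans ?_ (this.trans ?_)
    · rfl
    · unfold S0
      apply Finset.sum_congr rfl
      intro f _
      congr 1

theorem rob_vals : (4 : ℝ) ^ 19 * S0 (7 / 4) robMasks 0 = 6042429501210624 ∧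
    (4 : ℝ) ^ 19 * S1 (7 / 4) robMasks 0 = 27930593702445056 := by
  have h := run_spec 7 4 (7 / 4 : ℝ) (by norm_num) robMasks 0
  rw [rob_run] at h
  obtain ⟨h1, h2⟩ := h
  constructor
  · have : (((6042429501210624, 27930593702445056) : ℕ × ℕ).1 : ℝ) = 6042429501210624 := by
      norm_num
    rw [this] at h1
    exact h1.symm
  · have : (((6042429501210624, 27930593702445056) : ℕ × ℕ).2 : ℝ) = 27930593702445056 := by
      norm_num
    rw [this] at h2
    exact h2.symm

theorem big_vals : (4 : ℝ) ^ 22 * S0 (7 / 4) bigMasks 0 = 1902846356679032832 ∧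
    (4 : ℝ) ^ 22 * S1 (7 / 4) bigMasks 0 = 10183231965482713088 := by
  have h := run_spec 7 4 (7 / 4 : ℝ) (by norm_num) bigMasks 0
  rw [big_run] at h
  obtain ⟨h1, h2⟩ := h
  constructor
  · have : (((1902846356679032832, 10183231965482713088) : ℕ × ℕ).1 : ℝ) =
        1902846356679032832 := by
      norm_num
    rw [this] at h1
    exact h1.symm
  · have : (((1902846356679032832, 10183231965482713088) : ℕ × ℕ).2 : ℝ) =
        10183231965482713088 := by
      norm_num
    rw [this] at h2
    exact h2.symm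

/-- The polynomial of the statement. -/
noncomputable def P (x : ℝ) : ℝ :=
  90*x^6 + 729*x^5 - 188*x^4 - 1632*x^3 - 1247*x^2 - 363*x - 38

theorem largest_root : ∃ L : ℝ, P L = 0 ∧ (∀ x : ℝ, P x = 0 → x ≤ L) ∧ 7 / 4 ≤ L := by
  have hc : Continuous P := by unfold P; fun_prop
  have hiv := intermediate_value_Icc (show (7 / 4 : ℝ) ≤ 2 by norm_num)
    (hc.continuousOn (s := Set.Icc (7 / 4 : ℝ) 2))
  have h0 : (0 : ℝ) ∈ Set.Icc (P (7 / 4)) (P 2) := by
    constructor
    · unfold P; norm_num
    · unfold P; norm_num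
  obtain ⟨x0, hx0, hPx0⟩ := hiv h0
  set S : Set ℝ := {x | P x = 0} with hS
  have hcl : IsClosed S := isClosed_eq hc continuous_const
  have hne : S.Nonempty := ⟨x0, hPx0⟩
  have hbd : BddAbove S := by
    refine ⟨2, fun x hx => ?_⟩
    by_contra hlt
    have := poly_pos x (le_of_lt (not_le.1 hlt))
    have hx' : P x = 0 := hx
    unfold P at hx'
    linarith
  refine ⟨sSup S, hcl.csSup_mem hne hbd, fun x hx => le_csSup hbd hx, ?_⟩
  exact hx0.1.trans (le_csSup hbd hPx0)

/-- The negation of the preceding statement: Let L be the largest real root of the sextic. For every finite 4-regular triangle-free G and λ>0: if λ≤L, G's occupancy fraction is at least the Robertson graph's (4-regular, girth 5, 19 vertices); if λ≥L, at least that of the circulant on Z13 with jumps ±1,±5. -/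
theorem result :
    ¬ (∀ L : ℝ,
      90*L^6 + 729*L^5 - 188*L^4 - 1632*L^3 - 1247*L^2 - 363*L - 38 = 0 →
      (∀ x : ℝ, 90*x^6 + 729*x^5 - 188*x^4 - 1632*x^3 - 1247*x^2 - 363*x - 38 = 0 → x ≤ L) →
      ∀ (V : Type) [Fintype V] [Nonempty V] (G : SimpleGraph V),
        G.IsRegularOfDegree 4 → G.CliqueFree 3 →
        ∀ H : SimpleGraph (Fin 19), H.IsRegularOfDegree 4 → (5 : ℕ∞) ≤ H.egirth →
        ∀ l : ℝ, 0 < l →
          (l ≤ L →
            (∑ I : Finset (Fin 19), if H.IsIndepSet (I : Set (Fin 19)) then (I.card : ℝ) * l ^ I.card else 0) /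
              ((Fintype.card (Fin 19) : ℝ) *
                ∑ I : Finset (Fin 19), if H.IsIndepSet (I : Set (Fin 19)) then l ^ I.card else 0)
            ≤
            (∑ I : Finset V, if G.IsIndepSet (I : Set V) then (I.card : ℝ) * l ^ I.card else 0) /
              ((Fintype.card V : ℝ) *
                ∑ I : Finset V, if G.IsIndepSet (I : Set V) then l ^ I.card else 0)) ∧
          (L ≤ l →
            (∑ I : Finset (ZMod 13),
                if (SimpleGraph.fromRel (fun x y : ZMod 13 => x - y = 1 ∨ x - y = 5)).IsIndepSet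
                    (I : Set (ZMod 13))
                then (I.card : ℝ) * l ^ I.card else 0) /
              ((Fintype.card (ZMod 13) : ℝ) *
                ∑ I : Finset (ZMod 13),
                  if (SimpleGraph.fromRel (fun x y : ZMod 13 => x - y = 1 ∨ x - y = 5)).IsIndepSet
                      (I : Set (ZMod 13))
                  then l ^ I.card else 0)
            ≤
            (∑ I : Finset V, if G.IsIndepSet (I : Set V) then (I.card : ℝ) * l ^ I.card else 0) /
              ((Fintype.card V : ℝ) *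
                ∑ I : Finset V, if G.IsIndepSet (I : Set V) then l ^ I.card else 0))) := by
  intro h
  obtain ⟨L, hL, hmax, hle⟩ := largest_root
  have key := (h L hL hmax (Fin 22) big (by convert big_reg) big_free rob (by convert rob_reg)
    rob_girth (7 / 4) (by norm_num)).1 hle
  have r1 := rob_sums.1
  have r2 := rob_sums.2
  have b1 := big_sums.1
  have b2 := big_sums.2
  have v1 := rob_vals.1
  have v2 := rob_vals.2
  have w1 := big_vals.1
  have w2 := big_vals.2
  have e1 : S0 (7 / 4) robMasks 0 = 6042429501210624 / 4 ^ 19 := by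
    rw [← v1]; field_simp
  have e2 : S1 (7 / 4) robMasks 0 = 27930593702445056 / 4 ^ 19 := by
    rw [← v2]; field_simp
  have e3 : S0 (7 / 4) bigMasks 0 = 1902846356679032832 / 4 ^ 22 := by
    rw [← w1]; field_simp
  have e4 : S1 (7 / 4) bigMasks 0 = 10183231965482713088 / 4 ^ 22 := by
    rw [← w2]; field_simp
  have key2 : S1 (7 / 4) robMasks 0 / ((Fintype.card (Fin 19) : ℝ) * S0 (7 / 4) robMasks 0) ≤
      S1 (7 / 4) bigMasks 0 / ((Fintype.card (Fin 22) : ℝ) * S0 (7 / 4) bigMasks 0) := by
    rw [← r1, ← r2, ← b1, ← b2]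
    convert key
  rw [e1, e2, e3, e4, Fintype.card_fin, Fintype.card_fin] at key2
  norm_num at key2

end Pool.Agent.S10336
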