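import Pool.Statements.S11127
import Pool.Agent.L5helper41.RDeg5

set_option autoImplicit false
open Pool Pool.MP_bd7745_co

namespace Pool.Agent.S11127

/-- For k = 3 and k = 4: among all k-uniform hypergraphs on n labelled vertices, the fraction having two distinct vertices of equal degree tends to 1 as n → ∞. -/
theorem result :
    ∀ k : ℕ, (k = 3 ∨ k = 4) →
      Filter.Tendsto
        (fun n : ℕ =>
          ((((Finset.univ : Finset (Fin n)).powersetCard k).powerset.filter
              (fun H => ∃ v w : Fin n, v ≠ w ∧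
                (H.filter (fun e => v ∈ e)).card = (H.filter (fun e => w ∈ e)).card)).card : ℝ)
            / ((((Finset.univ : Finset (Fin n)).powersetCard k).powerset.card : ℝ)))
        Filter.atTop (nhds 1) := by
  classical
  intro k hk
  obtain ⟨p, rfl, hp⟩ : ∃ p, k = p + 1 ∧ (p = 2 ∨ p = 3) := by
    rcases hk with rfl | rfl
    · exact ⟨2, rfl, Or.inl rfl⟩
    · exact ⟨3, rfl, Or.inr rfl⟩
  rw [Metric.tendsto_atTop]
  intro ε hε
  -- choose `K`
  obtain ⟨K, hK1, hK2⟩ : ∃ K : ℝ, 1 ≤ K ∧ 1 / K ^ 2 < ε / 2 := by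
    refine ⟨max 1 (4 / ε), le_max_left _ _, ?_⟩
    have h1 : 1 ≤ max 1 (4 / ε) := le_max_left _ _
    have h2 : 4 / ε ≤ max 1 (4 / ε) := le_max_right _ _
    have h3 : max 1 (4 / ε) ≤ (max 1 (4 / ε)) ^ 2 := by nlinarith
    have h4 : 0 < 4 / ε := by positivity
    have h5 : 1 / (max 1 (4 / ε)) ^ 2 ≤ 1 / (4 / ε) :=
      one_div_le_one_div_of_le h4 (h2.trans h3)
    have h6 : 1 / (4 / ε) = ε / 4 := by field_simp
    rw [h6] at h5
    linarith
  obtain ⟨β, hβ, n0, hn0⟩ := Pool.Agent.L5helper41.RDeg.main_bound K hK1 p hp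
  have hlim : Filter.Tendsto (fun n : ℕ => Real.exp (-(β * Real.sqrt n))) Filter.atTop (nhds 0) := by
    apply Real.tendsto_exp_neg_atTop_nhds_zero.comp
    apply Filter.Tendsto.const_mul_atTop hβ
    exact Real.tendsto_sqrt_atTop.comp tendsto_natCast_atTop_atTop
  have hev := hlim.eventually (gt_mem_nhds (show (0 : ℝ) < ε / 2 by linarith))
  obtain ⟨n1, hn1⟩ := Filter.eventually_atTop.1 hev
  refine ⟨max n0 n1, fun n hn => ?_⟩
  have h0 := hn0 n (le_trans (le_max_left _ _) hn)
  have h1 := hn1 n (le_trans (le_max_right _ _) hn)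
  set E := Pool.Agent.L5helper41.RDeg.EE n p with hE
  have hE' : (Finset.univ : Finset (Fin n)).powersetCard (p + 1) = E := rfl
  rw [hE']
  set X := E.powerset.filter (fun H => ∃ v w : Fin n, v ≠ w ∧
                (H.filter (fun e => v ∈ e)).card = (H.filter (fun e => w ∈ e)).card) with hX
  set Y := E.powerset.filter (fun H => ∀ v w : Fin n, v ≠ w →
    Pool.Agent.L5helper41.RDeg.D H v ≠ Pool.Agent.L5helper41.RDeg.D H w) with hY
  have h2 : X.card + Y.card = 2 ^ E.card := by
    have h3 : Y = E.powerset.filter (fun H => ¬ ∃ v w : Fin n, v ≠ w ∧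
                (H.filter (fun e => v ∈ e)).card = (H.filter (fun e => w ∈ e)).card) := by
      apply Finset.filter_congr
      intro H _
      push Not
      rfl
    rw [h3, hX, Finset.card_filter_add_card_filter_not, Finset.card_powerset]
  have h2' : (X.card : ℝ) + Y.card = 2 ^ E.card := by exact_mod_cast h2
  have hpos : (0 : ℝ) < 2 ^ E.card := by positivity
  have h4 : (E.powerset.card : ℝ) = 2 ^ E.card := by
    rw [Finset.card_powerset]; push_cast; rfl
  rw [h4, Real.dist_eq]
  have h5 : (X.card : ℝ) / 2 ^ E.card - 1 = -((Y.card : ℝ) / 2 ^ E.card) := by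
    field_simp
    linarith
  rw [h5, abs_neg, abs_of_nonneg (by positivity), div_lt_iff₀ hpos]
  have h6 : (1 / K ^ 2 + Real.exp (-(β * Real.sqrt n))) * 2 ^ E.card < ε * 2 ^ E.card := by
    apply mul_lt_mul_of_pos_right _ hpos
    linarith
  exact lt_of_le_of_lt h0 h6

end Pool.Agent.S11127
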