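import Pool.Statements.S15828

set_option autoImplicit false
open Pool Pool.MP_f387d3_mp

namespace Pool.Agent.S15828

open Complex

/-- The weight of a path: one factor `-I` for every turn. -/
noncomputable def wt {n : ℕ} (s : Fin (n+1) → Bool) : ℂ :=
  ∏ i : Fin n, (if s i.castSucc ≠ s i.succ then (-I) else 1)

lemma wt_eq {n : ℕ} (s : Fin (n+1) → Bool) :
    (-Complex.I) ^ ((Finset.univ.filter (fun i : Fin n => s i.castSucc ≠ s i.succ)).card) = wt s := by
  unfold wt
  rw [Finset.prod_ite, Finset.prod_const, Finset.prod_const_one, mul_one]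

/-- The end point of a path. -/
def pos {n : ℕ} (s : Fin (n+1) → Bool) : ℤ := ∑ i, (if s i then (1:ℤ) else -1)

/-- Sum over the paths with a given last step. -/
noncomputable def St (n : ℕ) (b : Bool) (y : ℤ) : ℂ :=
  ∑ s : Fin (n+1) → Bool, if (s 0 = true ∧ s (Fin.last n) = b ∧ pos s = y) then wt s else 0

/-- The step belonging to a boolean. -/
def sg (b : Bool) : ℤ := if b then 1 else -1

lemma wt_snoc {n : ℕ} (s : Fin (n+1) → Bool) (b : Bool) :
    wt (Fin.snoc s b : Fin (n+2) → Bool) = wt s * (if s (Fin.last n) ≠ b then (-I) else 1) := by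
  unfold wt
  rw [Fin.prod_univ_castSucc]
  congr 1
  · apply Finset.prod_congr rfl
    intro i _
    have h1 : (Fin.snoc s b : Fin (n+2) → Bool) i.castSucc.castSucc = s i.castSucc := by
      rw [Fin.snoc_castSucc]
    have h2 : (Fin.snoc s b : Fin (n+2) → Bool) i.castSucc.succ = s i.succ := by
      rw [← Fin.castSucc_succ, Fin.snoc_castSucc]
    rw [h1, h2]
  · have h1 : (Fin.snoc s b : Fin (n+2) → Bool) (Fin.last n).castSucc = s (Fin.last n) := by
      rw [Fin.snoc_castSucc]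
    have h2 : (Fin.snoc s b : Fin (n+2) → Bool) (Fin.last n).succ = b := by
      rw [Fin.succ_last, Fin.snoc_last]
    rw [h1, h2]

lemma pos_snoc {n : ℕ} (s : Fin (n+1) → Bool) (b : Bool) :
    pos (Fin.snoc s b : Fin (n+2) → Bool) = pos s + sg b := by
  unfold pos sg
  rw [Fin.sum_univ_castSucc]
  congr 1
  · apply Finset.sum_congr rfl
    intro i _
    rw [Fin.snoc_castSucc]
  · rw [Fin.snoc_last]

lemma St_succ (n : ℕ) (b : Bool) (y : ℤ) :
    St (n+1) b y = St n b (y - sg b) + (-I) * St n (!b) (y - sg b) := by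
  unfold St
  rw [← (Fin.snocEquiv (fun _ : Fin (n+2) => Bool)).sum_comp]
  rw [Fintype.sum_prod_type, Finset.sum_comm, Finset.mul_sum, ← Finset.sum_add_distrib]
  apply Finset.sum_congr rfl
  intro s _
  have key : ∀ c : Bool, (Fin.snocEquiv (fun _ : Fin (n+2) => Bool)) (c, s) = (Fin.snoc s c : Fin (n+2) → Bool) := by
    intro c; rfl
  rw [Fintype.sum_bool, key, key]
  have h0 : ∀ c : Bool, (Fin.snoc s c : Fin (n+2) → Bool) 0 = s 0 := by
    intro c
    rw [← Fin.castSucc_zero, Fin.snoc_castSucc]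
  have hl : ∀ c : Bool, (Fin.snoc s c : Fin (n+2) → Bool) (Fin.last (n+1)) = c := by
    intro c
    rw [Fin.snoc_last]
  rw [h0, h0, hl, hl, pos_snoc, pos_snoc, wt_snoc, wt_snoc]
  have e1 : (pos s + sg true = y) ↔ (pos s = y - sg true) := by constructor <;> intro h <;> linarith
  have e2 : (pos s + sg false = y) ↔ (pos s = y - sg false) := by constructor <;> intro h <;> linarith
  simp only [e1, e2]
  cases b <;> cases hs : s (Fin.last n) <;> simp <;> split_ifs <;> ring

/-- Real part sequences. -/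
noncomputable def ab : ℕ → ℤ → ℝ × ℝ
  | 0 => fun y => (0, if y = 1 then 1 else 0)
  | (n+1) => fun y => ((ab n (y+1)).1 + (ab n (y+1)).2, (ab n (y-1)).2 - (ab n (y-1)).1)

lemma St_eq (n : ℕ) : ∀ y : ℤ, St n true y = ((ab n y).2 : ℂ) ∧ St n false y = (-I) * ((ab n y).1 : ℂ) := by
  induction n with
  | zero =>
    intro y
    constructor
    · unfold St
      rw [Fintype.sum_eq_single (fun _ => true)]
      · simp only [ab, pos, wt]
        by_cases hy : y = 1
        · simp [hy]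
        · have hy' : ¬ (1 = y) := fun h => hy h.symm
          simp [hy, hy']
      · intro s hs
        have : s 0 = false := by
          by_contra h
          apply hs
          funext i
          have : i = 0 := by
            have := i.2
            apply Fin.ext
            simp only [Fin.val_zero]
            omega
          subst this
          simpa using h
        simp [this]
    · unfold St
      rw [Finset.sum_eq_zero]
      · simp [ab]
      · intro s _
        have : (Fin.last 0) = (0 : Fin 1) := rfl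
        rw [this]
        split_ifs with h
        · rcases h with ⟨h1, h2, _⟩
          rw [h1] at h2
          exact absurd h2 (by decide)
        · rfl
  | succ n ih =>
    intro y
    constructor
    · rw [St_succ]
      simp only [sg, Bool.not_true, if_true]
      rw [(ih _).1, (ih _).2]
      simp only [ab]
      push_cast
      have : (-I) * ((-I) * ((ab n (y-1)).1 : ℂ)) = (I*I) * ((ab n (y-1)).1 : ℂ) := by ring
      rw [this, I_mul_I]; ring
    · rw [St_succ]
      simp only [sg, Bool.not_false]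
      have e : y - (if false = true then (1:ℤ) else -1) = y + 1 := by simp
      rw [e, (ih _).1, (ih _).2]
      simp only [ab]
      push_cast
      ring

lemma sum_eq (n : ℕ) (y : ℤ) :
    (∑ s ∈ Finset.univ.filter
              (fun s : Fin (n+1) → Bool =>
                s 0 = true ∧ ∑ i, (if s i then (1:ℤ) else -1) = y),
            (-Complex.I) ^ ((Finset.univ.filter
              (fun i : Fin n => s i.castSucc ≠ s i.succ)).card))
      = ((ab n y).2 : ℂ) + (-I) * ((ab n y).1 : ℂ) := by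
  rw [← (St_eq n y).1, ← (St_eq n y).2]
  unfold St
  rw [← Finset.sum_add_distrib, Finset.sum_filter]
  apply Finset.sum_congr rfl
  intro s _
  rw [wt_eq]
  unfold pos
  cases hs : s (Fin.last n) <;> simp

lemma normsq_eq (n : ℕ) (y : ℤ) :
    ‖(∑ s ∈ Finset.univ.filter
              (fun s : Fin (n+1) → Bool =>
                s 0 = true ∧ ∑ i, (if s i then (1:ℤ) else -1) = y),
            (-Complex.I) ^ ((Finset.univ.filter
              (fun i : Fin n => s i.castSucc ≠ s i.succ)).card))‖ ^ 2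
      = (ab n y).1 ^ 2 + (ab n y).2 ^ 2 := by
  rw [sum_eq, ← Complex.normSq_eq_norm_sq, Complex.normSq_apply]
  simp
  ring

/-- The two contiguous relations between neighbouring positions. -/
lemma rel (n : ℕ) : ∀ y : ℤ,
    ((n:ℝ) - 1 + y) * ((ab n (y-2)).1 - (ab n y).1) = 2 * (y - 1) * (ab n y).2 ∧
    ((n:ℝ) + 3 - y) * (ab n (y-2)).2 = (n + 1 - y) * (ab n y).2 - 2 * (y - 2) * (ab n (y-2)).1 := by
  induction n with
  | zero =>
    intro y
    simp only [ab]
    constructor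
    · by_cases hy : y = 1
      · subst hy; norm_num
      · simp [hy]
    · by_cases hy : y = 1
      · subst hy; norm_num
      · by_cases hy3 : y = 3
        · subst hy3; norm_num
        · have : ¬ (y - 2 = 1) := by intro h; apply hy3; linarith
          simp [hy, this]
  | succ n ih =>
    intro y
    simp only [ab]
    have h1 := ih (y+1)
    have h2 := ih (y-1)
    have e1 : y + 1 - 2 = y - 1 := by ring
    have e2 : y - 2 + 1 = y - 1 := by ring
    have e3 : y - 2 - 1 = y - 1 - 2 := by ring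
    rw [e1] at h1
    rw [e2, e3]
    push_cast at h1 h2 ⊢
    obtain ⟨h1a, h1b⟩ := h1
    obtain ⟨h2a, h2b⟩ := h2
    constructor
    · linear_combination h1a + h1b
    · linear_combination h2b - h2a

lemma ab_out (n : ℕ) : ∀ y : ℤ, (n:ℤ) + 1 < y → ab n y = (0, 0) := by
  induction n with
  | zero =>
    intro y hy
    simp only [ab]
    have : ¬ (y = 1) := by push_cast at hy; omega
    simp [this]
  | succ n ih =>
    intro y hy
    push_cast at hy
    simp only [ab]
    rw [ih (y+1) (by omega), ih (y-1) (by omega)]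
    simp

lemma ab_out' (n : ℕ) : ∀ y : ℤ, y < -((n:ℤ) + 1) → ab n y = (0, 0) := by
  induction n with
  | zero =>
    intro y hy
    simp only [ab]
    have : ¬ (y = 1) := by push_cast at hy; omega
    simp [this]
  | succ n ih =>
    intro y hy
    push_cast at hy
    simp only [ab]
    rw [ih (y+1) (by omega), ih (y-1) (by omega)]
    simp

lemma ab_par (n : ℕ) : ∀ y : ℤ, (n + 1 - y) % 2 = 1 → ab n y = (0, 0) := by
  induction n with
  | zero =>
    intro y hy
    simp only [ab]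
    have : ¬ (y = 1) := by push_cast at hy; omega
    simp [this]
  | succ n ih =>
    intro y hy
    push_cast at hy
    simp only [ab]
    rw [ih (y+1) (by omega), ih (y-1) (by omega)]
    simp

lemma ab_top (n : ℕ) : ab n ((n:ℤ)+1) = (0, 1) := by
  induction n with
  | zero => simp [ab]
  | succ n ih =>
    simp only [ab]
    push_cast
    have e : (n:ℤ) + 1 + 1 - 1 = n + 1 := by ring
    rw [e, ih, ab_out n _ (by omega)]
    simp

/-- The amplitudes with the oscillating sign removed. -/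
noncomputable def al (n k : ℕ) : ℝ := (-1) ^ k * (ab n ((n:ℤ) - 1 - 2 * k)).1
/-- The amplitudes with the oscillating sign removed. -/
noncomputable def be (n k : ℕ) : ℝ := (-1) ^ (k+1) * (ab n ((n:ℤ) - 1 - 2 * k)).2

lemma al_be (n k : ℕ) : ((n:ℝ) - 1 - k) * (al n (k+1) + al n k) = (n - 2 - 2 * k) * be n k := by
  have h := (rel n ((n:ℤ) - 1 - 2 * k)).1
  unfold al be
  have e : (n:ℤ) - 1 - 2 * ((k+1 : ℕ):ℤ) = (n:ℤ) - 1 - 2 * k - 2 := by push_cast; ring
  rw [e]
  push_cast at h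
  rw [pow_succ]
  linear_combination (-(-1:ℝ)^k / 2) * h

lemma be_al (n k : ℕ) : ((k:ℝ) + 2) * be n (k+1) + (k + 1) * be n k = (n - 3 - 2 * k) * al n (k+1) := by
  have h := (rel n ((n:ℤ) - 1 - 2 * k)).2
  unfold al be
  have e : (n:ℤ) - 1 - 2 * ((k+1 : ℕ):ℤ) = (n:ℤ) - 1 - 2 * k - 2 := by push_cast; ring
  rw [e]
  push_cast at h
  rw [pow_succ, pow_succ]
  linear_combination ((-1:ℝ)^k / 2) * h

lemma zero_vals (n : ℕ) (hn : 1 ≤ n) : al n 0 = 1 ∧ be n 0 = n - 1 := by
  have h := rel n ((n:ℤ) + 1)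
  have e : (n:ℤ) + 1 - 2 = n - 1 := by ring
  rw [e, ab_top] at h
  obtain ⟨h1, h2⟩ := h
  push_cast at h1 h2
  have hn' : (1:ℝ) ≤ n := by exact_mod_cast hn
  have ha : (ab n ((n:ℤ) - 1)).1 = 1 := by
    have : (2 * (n:ℝ)) * ((ab n ((n:ℤ) - 1)).1 - 1) = 0 := by linear_combination h1
    rcases mul_eq_zero.mp this with h | h
    · linarith
    · linarith
  have hb : (ab n ((n:ℤ) - 1)).2 = -(n - 1) := by
    rw [ha] at h2
    linarith
  unfold al be
  have e2 : (n:ℤ) - 1 - 2 * ((0:ℕ):ℤ) = n - 1 := by push_cast; ring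
  rw [e2, ha, hb]
  constructor
  · norm_num
  · norm_num

/-- The coefficient of the flux. -/
noncomputable def V (n k : ℕ) : ℝ := (k + 1) * (n - 1 - k) / (n - 2 - 2 * k)
/-- The flux. -/
noncomputable def E (n k : ℕ) : ℝ := V n k * (al n (k+1) - al n k)

lemma flux (n k : ℕ) (h : 0 < (n:ℝ) - 4 - 2 * k) :
    E n (k+1) = E n k + ((n:ℝ) - 3 - 2 * k) * (2 - (n:ℝ)^2 / (((n:ℝ) - 3 - 2 * k)^2 - 1)) * al n (k+1) := by
  have h1 := al_be n k
  have h2 := al_be n (k+1)
  have h3 := be_al n k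
  unfold E V
  push_cast at h2 ⊢
  have e3 : k + 1 + 1 = k + 2 := rfl
  rw [e3] at h2 ⊢
  generalize al n k = A0 at *
  generalize al n (k+1) = A1 at *
  generalize al n (k+2) = A2 at *
  generalize be n k = B0 at *
  generalize be n (k+1) = B1 at *
  obtain ⟨s, hs⟩ : ∃ s : ℝ, s = (n:ℝ) - 2 - 2 * k := ⟨_, rfl⟩
  have hn : (n:ℝ) = s + 2 + 2 * k := by linarith
  rw [hn] at h h1 h2 h3 ⊢
  have hs0 : s ≠ 0 := by
    intro h0; rw [h0] at h; linarith
  have hs2 : s - 2 ≠ 0 := by
    intro h0; apply absurd h; linarith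
  have e4 : ((s + 2 + 2 * k : ℝ) - 3 - 2 * k)^2 - 1 = s * (s - 2) := by ring
  have e5 : ((s + 2 + 2 * k : ℝ) - 2 - 2 * (k + 1)) = s - 2 := by ring
  have e6 : ((s + 2 + 2 * k : ℝ) - 2 - 2 * k) = s := by ring
  rw [e4, e5, e6]
  rw [e6] at h1
  rw [e5] at h2
  have b1 : B0 = (s + 2 + 2 * k - 1 - k) * (A1 + A0) / s := by
    rw [eq_div_iff hs0]; linear_combination -h1
  have b2 : B1 = (s + 2 + 2 * k - 1 - (k+1)) * (A2 + A1) / (s - 2) := by
    rw [eq_div_iff hs2]; linear_combination -h2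
  rw [b1, b2] at h3
  field_simp at h3 ⊢
  linear_combination h3

lemma V_lower (n k : ℕ) (U z0 : ℝ) (hU : 4 ≤ U) (hz : 2 * z0 ^ 2 = (n:ℝ) ^ 2)
    (hz0 : 100 * U ^ 4 ≤ z0) (h1 : 0 < (n:ℝ) - 2 - 2 * k) (h2 : (n:ℝ) - 1 - 2 * k ≤ z0 + U + 2) :
    (U ^ 2 + 3) ^ 2 ≤ V n k := by
  unfold V
  rw [le_div_iff₀ h1]
  set s : ℝ := (n:ℝ) - 2 - 2 * k with hs
  have hk : (k:ℝ) + 1 = (n - s) / 2 := by rw [hs]; ring
  have hk2 : (n:ℝ) - 1 - k = (n + s) / 2 := by rw [hs]; ring
  rw [hk, hk2]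
  have hs1 : s ≤ z0 + U + 1 := by rw [hs]; linarith
  have hU2 : 16 ≤ U ^ 2 := by nlinarith
  have hU4 : 256 ≤ U ^ 4 := by nlinarith [sq_nonneg (U^2 - 16)]
  have hUU : U + 1 ≤ U ^ 4 := by nlinarith
  have hM : (U ^ 2 + 3) ^ 2 ≤ 3 / 2 * U ^ 4 := by nlinarith
  have hs2 : s ≤ 101 / 100 * z0 := by linarith
  have hz0' : 0 < z0 := by linarith
  have hM2 : (U ^ 2 + 3) ^ 2 ≤ 15 / 1000 * z0 := by linarith
  have h3 : (U ^ 2 + 3) ^ 2 * s ≤ 15 / 1000 * z0 * (101 / 100 * z0) :=
    mul_le_mul hM2 hs2 h1.le (by positivity)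
  have h4 : s ^ 2 ≤ (101 / 100 * z0) ^ 2 := by
    apply pow_le_pow_left₀ h1.le hs2
  have h5 : ((n:ℝ) - s) / 2 * ((n + s) / 2) = ((n:ℝ) ^ 2 - s ^ 2) / 4 := by ring
  rw [h5, ← hz]
  nlinarith

lemma rho_lower (n : ℕ) (U z0 z : ℝ) (hU : 4 ≤ U) (hz : 2 * z0 ^ 2 = (n:ℝ) ^ 2)
    (hz0 : 100 * U ^ 4 ≤ z0) (h1 : z0 - U ≤ z) (h2 : z ≤ z0 + U) :
    4 * (z - z0) - 1 ≤ z * (2 - (n:ℝ) ^ 2 / (z ^ 2 - 1)) := by
  have hU2 : 16 ≤ U ^ 2 := by nlinarith
  have hU4 : 16 * U ^ 2 ≤ U ^ 4 := by nlinarith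
  have hUU : U ≤ U ^ 2 := by nlinarith
  have hz1 : 99 * U ^ 4 ≤ z := by nlinarith
  have hz2 : 2 * U ^ 2 + 6 ≤ z := by nlinarith
  have hz3 : 1 < z := by nlinarith
  have hpos : 0 < z ^ 2 - 1 := by nlinarith
  have e : z * (2 - (n:ℝ) ^ 2 / (z ^ 2 - 1)) = z * (2 * (z ^ 2 - 1) - (n:ℝ) ^ 2) / (z ^ 2 - 1) := by
    field_simp
  rw [e, le_div_iff₀ hpos, ← hz]
  set u : ℝ := z - z0 with hu
  have hz0e : z0 = z - u := by rw [hu]; ring
  rw [hz0e]
  have hu1 : -U ≤ u := by rw [hu]; linarith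
  have hu2 : u ≤ U := by rw [hu]; linarith
  have husq : u ^ 2 ≤ U ^ 2 := by nlinarith
  have key : z * (2 * (z ^ 2 - 1) - 2 * (z - u) ^ 2) - (4 * u - 1) * (z ^ 2 - 1)
      = z * (z - 2 - 2 * u ^ 2) + 4 * u - 1 := by ring
  have h6 : 4 ≤ z - 2 - 2 * u ^ 2 := by linarith
  have h7 : z * 4 ≤ z * (z - 2 - 2 * u ^ 2) := mul_le_mul_of_nonneg_left h6 (by linarith)
  nlinarith

lemma rho_nonneg (n : ℕ) (z0 z : ℝ) (hz : 2 * z0 ^ 2 = (n:ℝ) ^ 2) (h0 : 0 < z0) (h1 : z0 + 1 ≤ z) :
    0 ≤ z * (2 - (n:ℝ) ^ 2 / (z ^ 2 - 1)) := by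
  have hpos : 0 < z ^ 2 - 1 := by nlinarith
  apply mul_nonneg (by linarith)
  have : (n:ℝ) ^ 2 / (z ^ 2 - 1) ≤ 2 := by
    rw [div_le_iff₀ hpos, ← hz]
    nlinarith
  linarith

lemma mono (n : ℕ) (C U z0 : ℝ) (hC : 0 ≤ C) (hU : U = C + 4) (hz : 2 * z0 ^ 2 = (n:ℝ) ^ 2)
    (hz0 : 100 * U ^ 4 ≤ z0) :
    ∀ k : ℕ, z0 - C ≤ (n:ℝ) - 1 - 2 * k → 0 < al n k ∧ 0 < E n k ∧
      (U - ((n:ℝ) - 1 - 2 * k - z0)) * (U + ((n:ℝ) - 1 - 2 * k - z0) - 3) * al n k ≤ E n k := by
  have hU4 : 4 ≤ U := by linarith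
  have hU2 : 16 ≤ U ^ 2 := by nlinarith
  have hU44 : 16 * U ^ 2 ≤ U ^ 4 := by nlinarith
  have hUU : 4 * U ≤ U ^ 2 := by nlinarith
  have hz00 : 0 < z0 := by nlinarith
  have hn0 : (0:ℝ) ≤ n := Nat.cast_nonneg n
  have hn1 : 14 / 10 * z0 ≤ n := by
    by_contra h
    push Not at h
    nlinarith
  have hnn : 1 ≤ n := by
    have : (1:ℝ) ≤ n := by nlinarith
    exact_mod_cast this
  intro k
  induction k with
  | zero =>
    intro _
    have hv := zero_vals n hnn
    have hab := al_be n 0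
    rw [hv.1, hv.2] at hab
    push_cast at hab ⊢
    have hn3 : (5:ℝ) ≤ n := by nlinarith
    have h1 : al n 1 = n - 3 := by
      have : ((n:ℝ) - 1) * (al n 1 - (n - 3)) = 0 := by linear_combination hab
      rcases mul_eq_zero.mp this with h | h
      · linarith
      · linarith
    have hE : 0 < E n 0 := by
      unfold E V
      push_cast
      simp only [zero_add]
      rw [h1, hv.1]
      apply mul_pos
      · apply div_pos
        · nlinarith
        · linarith
      · linarith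
    refine ⟨by rw [hv.1]; norm_num, hE, ?_⟩
    have : (U - ((n:ℝ) - 1 - 2 * 0 - z0)) * (U + ((n:ℝ) - 1 - 2 * 0 - z0) - 3) * al n 0 ≤ 0 := by
      rw [hv.1, mul_one]
      apply mul_nonpos_of_nonpos_of_nonneg
      · nlinarith
      · nlinarith
    linarith
  | succ k ih =>
    intro hk
    push_cast at hk ⊢
    obtain ⟨ha, hE, hphi⟩ := ih (by linarith)
    have hs : 0 < (n:ℝ) - 2 - 2 * k := by nlinarith
    have hs2 : 0 < (n:ℝ) - 4 - 2 * k := by nlinarith
    have hVpos : 0 < V n k := by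
      unfold V
      apply div_pos _ hs
      apply mul_pos
      · positivity
      · linarith
    have hak : al n (k+1) = al n k + E n k / V n k := by
      unfold E
      field_simp
      ring
    have ha1 : 0 < al n (k+1) := by
      rw [hak]
      have := div_pos hE hVpos
      linarith
    have hfl := flux n k hs2
    set z : ℝ := (n:ℝ) - 3 - 2 * k with hzdef
    have hu : (n:ℝ) - 1 - 2 * (k+1) - z0 = z - z0 := by rw [hzdef]; ring
    rw [hu]
    have hzk : (n:ℝ) - 1 - 2 * k - z0 = z - z0 + 2 := by rw [hzdef]; ring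
    rw [hzk] at hphi
    have hzC : z0 - C ≤ z := by rw [hzdef]; linarith
    by_cases hcase : z0 + U ≤ z
    · have hr := rho_nonneg n z0 z hz hz00 (by linarith)
      have hE1 : 0 < E n (k+1) := by
        rw [hfl]
        have := mul_nonneg hr ha1.le
        linarith
      refine ⟨ha1, hE1, ?_⟩
      have : (U - (z - z0)) * (U + (z - z0) - 3) * al n (k+1) ≤ 0 := by
        apply mul_nonpos_of_nonpos_of_nonneg _ ha1.le
        apply mul_nonpos_of_nonpos_of_nonneg
        · linarith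
        · linarith
      linarith
    · push Not at hcase
      have hr := rho_lower n U z0 z hU4 hz hz0 (by linarith) hcase.le
      have hV := V_lower n k U z0 hU4 hz hz0 hs (by rw [hzdef] at hcase; linarith)
      set u : ℝ := z - z0 with hudef
      have hu1 : -C ≤ u := by linarith
      have hu2 : u < U := by linarith
      -- F = max 0 phi(u+2)
      set F : ℝ := max 0 ((U - (u + 2)) * (U + (u + 2) - 3)) with hF
      have hF0 : 0 ≤ F := le_max_left _ _
      have hF1 : (U - (u + 2)) * (U + (u + 2) - 3) ≤ F := le_max_right _ _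
      have hF2 : F ≤ U ^ 2 + 3 := by
        apply max_le
        · positivity
        · nlinarith [sq_nonneg (u + 2 - 3 / 2)]
      have hEF : F * al n k ≤ E n k := by
        rcases max_choice 0 ((U - (u + 2)) * (U + (u + 2) - 3)) with h | h
        · rw [hF, h, zero_mul]; exact hE.le
        · rw [hF, h]; exact hphi
      have hstep : (F - 1) * al n (k+1) ≤ E n k := by
        by_cases hF3 : F ≤ 1
        · have : (F - 1) * al n (k+1) ≤ 0 := mul_nonpos_of_nonpos_of_nonneg (by linarith) ha1.le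
          linarith
        · push Not at hF3
          rw [hak]
          have hFV : F * (F - 1) ≤ V n k := by
            have h0 : F ^ 2 ≤ (U ^ 2 + 3) ^ 2 := pow_le_pow_left₀ hF0 hF2 2
            have h1 : F * (F - 1) = F ^ 2 - F := by ring
            linarith
          have hx : E n k = V n k * (E n k / V n k) := by field_simp
          set X : ℝ := E n k / V n k with hX
          have hXpos : 0 ≤ X := (div_pos hE hVpos).le
          have h1 : F * al n k ≤ V n k * X := by rw [← hx]; exact hEF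
          -- (F-1)(a+X) <= V X
          have h2 : (F - 1) * (F * al n k) ≤ (F - 1) * (V n k * X) :=
            mul_le_mul_of_nonneg_left h1 (by linarith)
          have h3 : F * (F - 1) * X ≤ V n k * X := mul_le_mul_of_nonneg_right hFV hXpos
          have h4 : F * ((F - 1) * (al n k + X)) ≤ F * (V n k * X) := by
            calc F * ((F - 1) * (al n k + X))
                = (F - 1) * (F * al n k) + F * (F - 1) * X := by ring
              _ ≤ (F - 1) * (V n k * X) + V n k * X := add_le_add h2 h3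
              _ = F * (V n k * X) := by ring
          have h5 : (F - 1) * (al n k + X) ≤ V n k * X := le_of_mul_le_mul_left h4 (by linarith)
          rw [hx]; exact h5
      have hfinal : (U - u) * (U + u - 3) * al n (k+1) ≤ E n (k+1) := by
        rw [hfl]
        have h1 : (4 * u - 1) * al n (k+1) ≤ z * (2 - (n:ℝ)^2 / (z^2 - 1)) * al n (k+1) :=
          mul_le_mul_of_nonneg_right hr ha1.le
        have h2 : (U - u) * (U + u - 3) ≤ (F - 1) + (4 * u - 1) := by
          have : (U - u) * (U + u - 3) = (U - (u + 2)) * (U + (u + 2) - 3) + 4 * u - 2 := by ring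
          linarith
        have h3 : (U - u) * (U + u - 3) * al n (k+1) ≤ ((F - 1) + (4 * u - 1)) * al n (k+1) :=
          mul_le_mul_of_nonneg_right h2 ha1.le
        have h4 : ((F - 1) + (4 * u - 1)) * al n (k+1)
            = (F - 1) * al n (k+1) + (4 * u - 1) * al n (k+1) := by ring
        linarith [hstep]
      refine ⟨ha1, ?_, hfinal⟩
      have h1 : 0 < (U - u) * (U + u - 3) * al n (k+1) := by
        apply mul_pos _ ha1
        apply mul_pos
        · linarith
        · linarith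
      linarith

lemma step_up (n k : ℕ) (C U z0 : ℝ) (hC : 0 ≤ C) (hU : U = C + 4) (hz : 2 * z0 ^ 2 = (n:ℝ) ^ 2)
    (hz0 : 100 * U ^ 4 ≤ z0) (hk : z0 - C ≤ (n:ℝ) - 1 - 2 * (k + 2)) :
    (al n k) ^ 2 + (be n k) ^ 2 < (al n (k+1)) ^ 2 + (be n (k+1)) ^ 2 := by
  have m0 := mono n C U z0 hC hU hz hz0 k (by linarith)
  have m1 := mono n C U z0 hC hU hz hz0 (k+1) (by push_cast; linarith)
  have hU4 : 4 ≤ U := by linarith
  have hU2 : 16 ≤ U ^ 2 := by nlinarith
  have hU44 : 16 * U ^ 2 ≤ U ^ 4 := by nlinarith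
  have hUU : 4 * U ≤ U ^ 2 := by nlinarith
  have hs : 0 < (n:ℝ) - 2 - 2 * k := by nlinarith
  have hs2 : 0 < (n:ℝ) - 4 - 2 * k := by nlinarith
  have hk0 : (0:ℝ) ≤ k := Nat.cast_nonneg k
  have hV0 : 0 < V n k := by
    unfold V
    apply div_pos _ hs
    apply mul_pos
    · positivity
    · linarith
  have hV1 : 0 < V n (k+1) := by
    unfold V
    push_cast
    apply div_pos
    · apply mul_pos
      · positivity
      · linarith
    · linarith
  have d0 : 0 < al n (k+1) - al n k := by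
    have := m0.2.1
    unfold E at this
    exact (mul_pos_iff_of_pos_left hV0).mp this
  have d1 : 0 < al n (k+1+1) - al n (k+1) := by
    have := m1.2.1
    unfold E at this
    exact (mul_pos_iff_of_pos_left hV1).mp this
  have h1 := al_be n k
  have h2 := al_be n (k+1)
  push_cast at h2
  have b1 : be n k = ((n:ℝ) - 1 - k) / (n - 2 - 2 * k) * (al n (k+1) + al n k) := by
    have hs' : (n:ℝ) - 2 - 2 * k ≠ 0 := hs.ne'
    rw [div_mul_eq_mul_div, eq_div_iff hs']
    linear_combination -h1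
  have b2 : be n (k+1) = ((n:ℝ) - 2 - k) / (n - 4 - 2 * k) * (al n (k+1+1) + al n (k+1)) := by
    have hs' : (n:ℝ) - 4 - 2 * k ≠ 0 := hs2.ne'
    rw [div_mul_eq_mul_div, eq_div_iff hs']
    linear_combination -h2
  have hr0 : 0 < ((n:ℝ) - 1 - k) / (n - 2 - 2 * k) := div_pos (by linarith) hs
  have hr : ((n:ℝ) - 1 - k) / (n - 2 - 2 * k) ≤ ((n:ℝ) - 2 - k) / (n - 4 - 2 * k) := by
    rw [div_le_div_iff₀ hs hs2]
    have : ((n:ℝ) - 2 - k) * (n - 2 - 2 * k) - (n - 1 - k) * (n - 4 - 2 * k) = n := by ring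
    linarith
  have ha0 := m0.1
  have ha1 : 0 < al n (k+1) := m1.1
  have hb0 : 0 < be n k := by rw [b1]; exact mul_pos hr0 (by linarith)
  have hb : be n k < be n (k+1) := by
    rw [b1, b2]
    calc ((n:ℝ) - 1 - k) / (n - 2 - 2 * k) * (al n (k+1) + al n k)
        < ((n:ℝ) - 1 - k) / (n - 2 - 2 * k) * (al n (k+1+1) + al n (k+1)) :=
          mul_lt_mul_of_pos_left (by linarith) hr0
      _ ≤ ((n:ℝ) - 2 - k) / (n - 4 - 2 * k) * (al n (k+1+1) + al n (k+1)) :=
          mul_le_mul_of_nonneg_right hr (by linarith)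
  have ha : al n k < al n (k+1) := by linarith
  have q1 : (al n k) ^ 2 < (al n (k+1)) ^ 2 := pow_lt_pow_left₀ ha ha0.le (by norm_num)
  have q2 : (be n k) ^ 2 < (be n (k+1)) ^ 2 := pow_lt_pow_left₀ hb hb0.le (by norm_num)
  linarith

lemma sq_al (n k : ℕ) : (al n k) ^ 2 = (ab n ((n:ℤ) - 1 - 2 * k)).1 ^ 2 := by
  unfold al
  rw [mul_pow, ← pow_mul, mul_comm k 2, pow_mul]
  norm_num

lemma sq_be (n k : ℕ) : (be n k) ^ 2 = (ab n ((n:ℤ) - 1 - 2 * k)).2 ^ 2 := by
  unfold be
  rw [mul_pow, ← pow_mul, mul_comm (k+1) 2, pow_mul]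
  norm_num

/-- The negation of the preceding statement: In the basic Feynman checkers model, with P(x,t) the squared norm of the checker-path amplitude at time t=n+1, there is a constant C such that every maximiser x of P(·,t) is within C of t/√2, for all t. -/
theorem result :
    ¬ (∃ C : ℝ, ∀ n : ℕ, ∀ x : ℤ,
      (∀ y : ℤ,
        (2:ℝ) ^ (-(n:ℤ)) *
          ‖∑ s ∈ Finset.univ.filter
              (fun s : Fin (n+1) → Bool =>
                s 0 = true ∧ ∑ i, (if s i then (1:ℤ) else -1) = y),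
            (-Complex.I) ^ ((Finset.univ.filter
              (fun i : Fin n => s i.castSucc ≠ s i.succ)).card)‖ ^ 2
        ≤
        (2:ℝ) ^ (-(n:ℤ)) *
          ‖∑ s ∈ Finset.univ.filter
              (fun s : Fin (n+1) → Bool =>
                s 0 = true ∧ ∑ i, (if s i then (1:ℤ) else -1) = x),
            (-Complex.I) ^ ((Finset.univ.filter
              (fun i : Fin n => s i.castSucc ≠ s i.succ)).card)‖ ^ 2) →
      |(x:ℝ) - ((n:ℝ) + 1) / Real.sqrt 2| ≤ C) := by
  rintro ⟨C0, h⟩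
  obtain ⟨C1, hC1⟩ : ∃ C1 : ℝ, C1 = max C0 0 := ⟨_, rfl⟩
  have hC10 : 0 ≤ C1 := by rw [hC1]; exact le_max_right _ _
  have hC01 : C0 ≤ C1 := by rw [hC1]; exact le_max_left _ _
  obtain ⟨C, hC⟩ : ∃ C : ℝ, C = C1 + 6 := ⟨_, rfl⟩
  obtain ⟨U, hU⟩ : ∃ U : ℝ, U = C + 4 := ⟨_, rfl⟩
  have hs2 : Real.sqrt 2 ^ 2 = 2 := Real.sq_sqrt (by norm_num)
  have hs0 : 0 < Real.sqrt 2 := Real.sqrt_pos.mpr (by norm_num)
  have hs1 : Real.sqrt 2 ≤ 3 / 2 := by
    rw [show (3:ℝ) / 2 = Real.sqrt ((3/2)^2) from (Real.sqrt_sq (by norm_num)).symm]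
    apply Real.sqrt_le_sqrt; norm_num
  have hs3 : 14 / 10 ≤ Real.sqrt 2 := by
    rw [show (14:ℝ) / 10 = Real.sqrt ((14/10)^2) from (Real.sqrt_sq (by norm_num)).symm]
    apply Real.sqrt_le_sqrt; norm_num
  obtain ⟨n, hn⟩ := exists_nat_ge (100 * U ^ 4 * Real.sqrt 2)
  obtain ⟨z0, hz0⟩ : ∃ z0 : ℝ, z0 = (n:ℝ) / Real.sqrt 2 := ⟨_, rfl⟩
  have hz : 2 * z0 ^ 2 = (n:ℝ) ^ 2 := by
    rw [hz0, div_pow, hs2]; ring
  have hz1 : 100 * U ^ 4 ≤ z0 := by
    rw [hz0, le_div_iff₀ hs0]; exact hn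
  have hU4 : 10 ≤ U := by linarith
  have hU2 : 10 * U ≤ U ^ 2 := by nlinarith
  have hU44 : 100 * U ^ 2 ≤ U ^ 4 := by nlinarith
  have hnz : 14 / 10 * z0 ≤ n := by
    have : (n:ℝ) = z0 * Real.sqrt 2 := by rw [hz0]; field_simp
    rw [this]
    have hz00 : 0 ≤ z0 := by nlinarith
    nlinarith
  have hdiv : ((n:ℝ) + 1) / Real.sqrt 2 = z0 + 1 / Real.sqrt 2 := by rw [hz0]; ring
  have hone : 0 < 1 / Real.sqrt 2 := by positivity
  have hone' : 1 / Real.sqrt 2 ≤ 1 := by
    rw [div_le_one hs0]; linarith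
  -- a maximiser
  obtain ⟨x, hxmem, hxmax⟩ := Finset.exists_max_image (Finset.Icc (-((n:ℤ)+1)) ((n:ℤ)+1))
    (fun y => (ab n y).1 ^ 2 + (ab n y).2 ^ 2) ⟨(n:ℤ)+1, by simp; omega⟩
  have hpos : 0 < (ab n x).1 ^ 2 + (ab n x).2 ^ 2 := by
    have := hxmax ((n:ℤ)+1) (by simp; omega)
    simp only [ab_top] at this
    norm_num at this
    linarith
  have hxall : ∀ y : ℤ, (ab n y).1 ^ 2 + (ab n y).2 ^ 2 ≤ (ab n x).1 ^ 2 + (ab n x).2 ^ 2 := by
    intro y
    by_cases hy : y ∈ Finset.Icc (-((n:ℤ)+1)) ((n:ℤ)+1)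
    · exact hxmax y hy
    · have : ab n y = (0, 0) := by
        rw [Finset.mem_Icc, not_and_or, not_le, not_le] at hy
        rcases hy with hy | hy
        · exact ab_out' n y hy
        · exact ab_out n y hy
      rw [this]
      simpa using hpos.le
  have hbound := h n x (by
    intro y
    rw [normsq_eq, normsq_eq]
    exact mul_le_mul_of_nonneg_left (hxall y) (by positivity))
  rw [hdiv, abs_le] at hbound
  have hpar : (n + 1 - x) % 2 = 0 := by
    by_contra hne
    have : (n + 1 - x) % 2 = 1 := by omega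
    rw [ab_par n x this] at hpos
    norm_num at hpos
  have hxle : x ≤ n + 1 := (Finset.mem_Icc.mp hxmem).2
  have hxlt : x < n + 1 := by
    have : (x:ℝ) < (n:ℝ) + 1 := by nlinarith
    exact_mod_cast this
  obtain ⟨k, hk⟩ : ∃ k : ℕ, x = (n:ℤ) - 1 - 2 * k := by
    refine ⟨((n - 1 - x) / 2).toNat, ?_⟩
    omega
  have hkr : (x:ℝ) = (n:ℝ) - 1 - 2 * k := by rw [hk]; push_cast; ring
  have hstep := step_up n k C U z0 (by linarith) hU hz hz1 (by linarith)
  have hlast := hxall (x - 2)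
  have e : x - 2 = (n:ℤ) - 1 - 2 * ((k+1 : ℕ) : ℤ) := by rw [hk]; push_cast; ring
  rw [e, ← sq_al, ← sq_be, hk, ← sq_al, ← sq_be] at hlast
  linarith

end Pool.Agent.S15828
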