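import Pool.Statements.S16523
import Pool.Agent.L5helper10.IK.Main

set_option autoImplicit false
open Pool Pool.MP_33a4a7_nt

namespace Pool.Agent.S16523

open MeasureTheory Pool.Agent.L5helper10.IK

theorem tail_ae (y : ℝ × ℝ) (u : ℕ → ℝ) (h0 : ∀ s, 0 ≤ u s) (h1 : ∀ s, u s ≤ 1 / 2)
    (hdiv : ¬ Summable (fun q => u q ^ 2)) :
    ∀ᵐ x ∂(volume : Measure (UnitAddCircle × UnitAddCircle)), ∀ Q : ℕ, ∃ q : ℕ, Q < q ∧ x ∈ A y u q := by
  rw [ae_all_iff]
  intro Q
  have hfull := tail_full y u h0 h1 hdiv Q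
  have : IsProbabilityMeasure (volume : Measure UnitAddCircle) := ⟨by simp⟩
  have : IsProbabilityMeasure (volume : Measure (UnitAddCircle × UnitAddCircle)) := by
    rw [show (volume : Measure (UnitAddCircle × UnitAddCircle)) = volume.prod volume from rfl]
    infer_instance
  set U : Set (UnitAddCircle × UnitAddCircle) := ⋃ q ∈ {q : ℕ | Q < q}, A y u q with hU
  have hUm : MeasurableSet U := MeasurableSet.biUnion (Set.to_countable _) fun q _ => A_meas y u q
  have h2 : volume U = 1 := by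
    rw [measureReal_def] at hfull
    have h3 : volume U ≠ ⊤ := measure_ne_top _ _
    rw [← ENNReal.ofReal_toReal h3, hfull, ENNReal.ofReal_one]
  have h3 : ∀ᵐ x ∂(volume : Measure (UnitAddCircle × UnitAddCircle)), x ∈ U := by
    rw [← prob_compl_eq_zero_iff hUm] at h2
    exact h2
  filter_upwards [h3] with x hx
  rw [hU, Set.mem_iUnion₂] at hx
  obtain ⟨q, hq, hx⟩ := hx
  exact ⟨q, hq, hx⟩

/-- For every y in R^2 and every nonnegative psi on N with sum of psi(q)^2 infinite, almost every x in [0,1]^2 has infinitely many q ≥ 1 with some integer vector a making the sup-norm of qx − a − y less than psi(q). -/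
theorem result :
    ∀ (y : ℝ × ℝ) (ψ : ℕ → ℝ), (∀ q, 0 ≤ ψ q) →
      ¬ Summable (fun q : ℕ => ψ q ^ 2) →
      ∀ᵐ x ∂(MeasureTheory.volume.restrict (Set.Icc (0 : ℝ × ℝ) 1)),
        {q : ℕ | 0 < q ∧ ∃ a : ℤ × ℤ,
          ‖(q : ℝ) • x - ((a.1 : ℝ), (a.2 : ℝ)) - y‖ < ψ q}.Infinite := by
  intro y ψ hψ hdiv
  set u : ℕ → ℝ := fun q => min (ψ q) (1 / 2) with hu
  have h0 : ∀ s, 0 ≤ u s := fun s => le_min (hψ s) (by norm_num)
  have h1 : ∀ s, u s ≤ 1 / 2 := fun s => min_le_right _ _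
  have hdiv' : ¬ Summable (fun q => u q ^ 2) := by
    intro hs
    apply hdiv
    have ht := hs.tendsto_atTop_zero
    have hev : ∀ᶠ q in Filter.atTop, u q ^ 2 < 1 / 4 := ht.eventually (gt_mem_nhds (by norm_num))
    apply hs.of_norm_bounded_eventually_nat
    filter_upwards [hev] with q hq
    have hlt : u q < 1 / 2 := by
      by_contra hcon
      push Not at hcon
      nlinarith
    have : ψ q = u q := by
      simp only [hu] at hlt ⊢
      rcases le_total (ψ q) (1 / 2) with h | h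
      · rw [min_eq_left h]
      · rw [min_eq_right h] at hlt; linarith
    rw [this, Real.norm_of_nonneg (sq_nonneg _)]
  have hae := tail_ae y u h0 h1 hdiv'
  -- transfer
  have hmp1 := AddCircle.measurePreserving_mk (1 : ℝ) 0
  rw [zero_add] at hmp1
  have hmp := hmp1.prod hmp1
  rw [Measure.prod_restrict] at hmp
  have hset : (volume.prod volume : Measure (ℝ × ℝ)).restrict (Set.Ioc 0 1 ×ˢ Set.Ioc 0 1) =
      (volume : Measure (ℝ × ℝ)).restrict (Set.Icc (0 : ℝ × ℝ) 1) := by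
    rw [show (volume.prod volume : Measure (ℝ × ℝ)) = volume from rfl]
    apply Measure.restrict_congr_set
    have : Set.Icc (0 : ℝ × ℝ) 1 = Set.Icc (0 : ℝ) 1 ×ˢ Set.Icc (0 : ℝ) 1 := Set.Icc_prod_eq 0 1
    rw [this]
    exact Measure.set_prod_ae_eq Ioc_ae_eq_Icc Ioc_ae_eq_Icc
  rw [hset] at hmp
  have hq := hmp.quasiMeasurePreserving.ae hae
  filter_upwards [hq] with x hx
  rw [Set.infinite_iff_exists_gt]
  intro Q
  obtain ⟨q, hqQ, hxq⟩ := hx Q
  refine ⟨q, ⟨by omega, ?_⟩, hqQ⟩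
  have key : ∀ (X p : ℝ), (X : UnitAddCircle) ∈ D q (p : UnitAddCircle) (u q) → ∃ α : ℤ, |(q : ℝ) * X - α - p| < ψ q := by
    intro X p h
    have h' : ‖(((q : ℝ) * X - p : ℝ) : UnitAddCircle)‖ < u q := by
      have e1 : (((q : ℝ) * X - p : ℝ) : UnitAddCircle) = q • (X : UnitAddCircle) - (p : UnitAddCircle) := by
        rw [← AddCircle.coe_nsmul, nsmul_eq_mul, ← AddCircle.coe_sub]
      rw [e1]; exact h
    obtain ⟨α, hα⟩ := (norm_lt_iff _ _).mp h'
    refine ⟨α, ?_⟩
    have : (q : ℝ) * X - α - p = q * X - p - α := by ring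
    rw [this]
    exact hα.trans_le (min_le_left _ _)
  obtain ⟨α1, hα1⟩ := key x.1 y.1 hxq.1
  obtain ⟨α2, hα2⟩ := key x.2 y.2 hxq.2
  refine ⟨(α1, α2), ?_⟩
  rw [Prod.norm_def]
  apply max_lt
  · simpa [Real.norm_eq_abs] using hα1
  · simpa [Real.norm_eq_abs] using hα2

end Pool.Agent.S16523
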